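import Mathlib
import Pool.Agent.JumpDeg.Red
import Pool.Agent.JumpDeg.Jump

/-!
Limit computable functions and predicates, closure properties, low sets, and the fact that
totality of partial recursive functions is not a `Σ⁰₂` predicate.
-/

namespace HighD2

open Encodable Denumerable Filter
open Nat.Partrec (Code)
open JumpDeg

/-! ### bounded quantifiers, computably -/

/-- bounded universal quantifier -/
def ballB (f : ℕ → Bool) (n : ℕ) : Bool := Nat.rec true (fun i IH => IH && f i) n

/-- bounded existential quantifier -/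
def bexB (f : ℕ → Bool) (n : ℕ) : Bool := Nat.rec false (fun i IH => IH || f i) n

lemma ballB_iff {f : ℕ → Bool} {n : ℕ} : ballB f n = true ↔ ∀ i < n, f i = true := by
  induction n with
  | zero => simp [ballB]
  | succ n ih =>
    have h : ballB f (n + 1) = (ballB f n && f n) := rfl
    rw [h, Bool.and_eq_true, ih]
    constructor
    · rintro ⟨h1, h2⟩ i hi
      rcases Nat.lt_succ_iff_lt_or_eq.1 hi with h | rfl
      · exact h1 i h
      · exact h2
    · intro h
      exact ⟨fun i hi => h i (by omega), h n (by omega)⟩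

lemma bexB_iff {f : ℕ → Bool} {n : ℕ} : bexB f n = true ↔ ∃ i < n, f i = true := by
  induction n with
  | zero => simp [bexB]
  | succ n ih =>
    have h : bexB f (n + 1) = (bexB f n || f n) := rfl
    rw [h, Bool.or_eq_true, ih]
    constructor
    · rintro (⟨i, hi, h2⟩ | h2)
      · exact ⟨i, by omega, h2⟩
      · exact ⟨n, by omega, h2⟩
    · rintro ⟨i, hi, h2⟩
      rcases Nat.lt_succ_iff_lt_or_eq.1 hi with h | rfl
      · exact Or.inl ⟨i, h, h2⟩
      · exact Or.inr h2

section
variable {α β γ σ : Type*} [Primcodable α] [Primcodable β] [Primcodable γ] [Primcodable σ]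

lemma computable_ballB {f : α → ℕ → Bool} (hf : Computable₂ f) {n : α → ℕ} (hn : Computable n) :
    Computable (fun a => ballB (f a) (n a)) := by
  have h : Computable₂ (fun (a : α) (p : ℕ × Bool) => p.2 && f a p.1) :=
    (Primrec.and.to_comp.comp (Computable.snd.comp Computable.snd)
      (hf.comp Computable.fst (Computable.fst.comp Computable.snd))).to₂
  exact Computable.nat_rec hn (Computable.const true) h

lemma computable_bexB {f : α → ℕ → Bool} (hf : Computable₂ f) {n : α → ℕ} (hn : Computable n) :
    Computable (fun a => bexB (f a) (n a)) := by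
  have h : Computable₂ (fun (a : α) (p : ℕ × Bool) => p.2 || f a p.1) :=
    (Primrec.or.to_comp.comp (Computable.snd.comp Computable.snd)
      (hf.comp Computable.fst (Computable.fst.comp Computable.snd))).to₂
  exact Computable.nat_rec hn (Computable.const false) h

/-! ### limit computable functions -/

/-- `f` is limit computable -/
def LimF (f : α → β) : Prop :=
  ∃ g : α → ℕ → β, Computable₂ g ∧ ∀ a, ∀ᶠ s in atTop, g a s = f a

lemma LimF.of_computable {f : α → β} (hf : Computable f) : LimF f :=
  ⟨fun a _ => f a, (hf.comp Computable.fst).to₂, fun _ => Eventually.of_forall fun _ => rfl⟩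

lemma LimF.comp {f : β → γ} {g : α → β} (hf : LimF f) (hg : LimF g) :
    LimF (fun a => f (g a)) := by
  obtain ⟨f', hf1, hf2⟩ := hf
  obtain ⟨g', hg1, hg2⟩ := hg
  refine ⟨fun a s => f' (g' a s) s, (hf1.comp hg1 Computable.snd).to₂, fun a => ?_⟩
  filter_upwards [hg2 a, hf2 (g a)] with s h1 h2
  rw [h1, h2]

lemma LimF.pair {f : α → β} {g : α → γ} (hf : LimF f) (hg : LimF g) :
    LimF (fun a => (f a, g a)) := by
  obtain ⟨f', hf1, hf2⟩ := hf
  obtain ⟨g', hg1, hg2⟩ := hg
  refine ⟨fun a s => (f' a s, g' a s), (hf1.pair hg1).to₂, fun a => ?_⟩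
  filter_upwards [hf2 a, hg2 a] with s h1 h2
  rw [h1, h2]

lemma LimF.congr {f g : α → β} (hf : LimF f) (h : ∀ a, f a = g a) : LimF g := by
  have : f = g := funext h
  rwa [← this]

lemma LimF.iter {s0 : σ} {step : ℕ × σ → σ} (hs : LimF step) :
    LimF (fun n : ℕ => (Nat.rec s0 (fun n IH => step (n, IH)) n : σ)) := by
  obtain ⟨g, hg1, hg2⟩ := hs
  refine ⟨fun n s => (Nat.rec s0 (fun n IH => g (n, IH) s) n : σ), ?_, ?_⟩
  · have h : Computable₂ (fun (a : ℕ × ℕ) (p : ℕ × σ) => g p a.2) :=
      (hg1.comp Computable.snd (Computable.snd.comp Computable.fst)).to₂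
    exact (Computable.nat_rec (f := fun a : ℕ × ℕ => a.1) (g := fun _ : ℕ × ℕ => s0)
      Computable.fst (Computable.const s0) h).to₂
  · intro n
    induction n with
    | zero => exact Eventually.of_forall fun _ => rfl
    | succ n ih =>
      filter_upwards [ih, hg2 (n, (Nat.rec s0 (fun n IH => step (n, IH)) n : σ))] with s h1 h2
      show g (n, (Nat.rec s0 (fun n IH => g (n, IH) s) n : σ)) s = _
      rw [h1, h2]

/-- `p` is a limit computable predicate -/
def LimP (p : α → Prop) : Prop := LimF (fun a => (open Classical in decide (p a) : Bool))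

lemma LimP.congr {p q : α → Prop} (hp : LimP p) (h : ∀ a, p a ↔ q a) : LimP q := by
  have : p = q := funext fun a => propext (h a)
  rwa [← this]

lemma LimP.comp {p : β → Prop} {f : α → β} (hp : LimP p) (hf : LimF f) :
    LimP (fun a => p (f a)) := LimF.comp hp hf

lemma LimP.not {p : α → Prop} (hp : LimP p) : LimP (fun a => ¬ p a) := by
  refine (LimF.comp (LimF.of_computable (f := Bool.not) Primrec.not.to_comp) hp).congr ?_
  intro a
  by_cases h : p a <;> simp [h]

lemma LimP.and {p q : α → Prop} (hp : LimP p) (hq : LimP q) : LimP (fun a => p a ∧ q a) := by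
  have h : Computable (fun x : Bool × Bool => x.1 && x.2) := Primrec.and.to_comp
  refine (LimF.comp (LimF.of_computable h) (LimF.pair hp hq)).congr ?_
  intro a
  by_cases h : p a <;> by_cases h' : q a <;> simp [h, h']

lemma LimP.or {p q : α → Prop} (hp : LimP p) (hq : LimP q) : LimP (fun a => p a ∨ q a) := by
  have h : Computable (fun x : Bool × Bool => x.1 || x.2) := Primrec.or.to_comp
  refine (LimF.comp (LimF.of_computable h) (LimF.pair hp hq)).congr ?_
  intro a
  by_cases h : p a <;> by_cases h' : q a <;> simp [h, h']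

lemma LimP.of_primrec {p : α → Prop} (hp : PrimrecPred p) : LimP p := by
  obtain ⟨_, hp⟩ := hp
  refine (LimF.of_computable hp.to_comp).congr fun a => ?_
  by_cases h : p a <;> simp [h]

lemma LimP.of_eq_true {f : α → Bool} (hf : LimF f) : LimP (fun a => f a = true) := by
  refine hf.congr fun a => ?_
  by_cases h : f a = true <;> simp [h]

lemma LimF.ite {p : α → Prop} (hp : LimP p) {f g : α → β} (hf : LimF f) (hg : LimF g) :
    LimF (fun a => (open Classical in if p a then f a else g a : β)) := by
  have h : Computable (fun x : Bool × β × β => bif x.1 then x.2.1 else x.2.2) :=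
    Computable.cond Computable.fst (Computable.fst.comp Computable.snd)
      (Computable.snd.comp Computable.snd)
  refine (LimF.comp (LimF.of_computable h) (LimF.pair hp (LimF.pair hf hg))).congr ?_
  intro a
  by_cases h : p a <;> simp [h]

/-- bounded search -/
def srchB (f : ℕ → Bool) (n : ℕ) : Option ℕ :=
  Nat.rec none (fun i IH => IH.elim (bif f i then some i else none) some) n

lemma srchB_of_forall {f : ℕ → Bool} {n : ℕ} (h : ∀ i < n, f i = false) : srchB f n = none := by
  induction n with
  | zero => rfl
  | succ n ih =>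
    have e : srchB f (n + 1) = (srchB f n).elim (bif f n then some n else none) some := rfl
    rw [e, ih (fun i hi => h i (by omega)), h n (by omega)]
    rfl

lemma srchB_eq {f : ℕ → Bool} {n w : ℕ} (hw : w < n) (h : ∀ i < w, f i = false)
    (h' : f w = true) : srchB f n = some w := by
  induction n with
  | zero => omega
  | succ n ih =>
    have e : srchB f (n + 1) = (srchB f n).elim (bif f n then some n else none) some := rfl
    rw [e]
    rcases Nat.lt_succ_iff_lt_or_eq.1 hw with h1 | rfl
    · rw [ih h1]
      rfl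
    · rw [srchB_of_forall h, h']
      rfl

lemma computable_srchB {f : α → ℕ → Bool} (hf : Computable₂ f) {n : α → ℕ} (hn : Computable n) :
    Computable (fun a => srchB (f a) (n a)) := by
  have h1 : Computable (fun q : α × ℕ × Option ℕ =>
      (bif f q.1 q.2.1 then some q.2.1 else none : Option ℕ)) :=
    Computable.cond (hf.comp Computable.fst (Computable.fst.comp Computable.snd))
      (Computable.option_some.comp (Computable.fst.comp Computable.snd)) (Computable.const none)
  have h : Computable₂ (fun (a : α) (p : ℕ × Option ℕ) =>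
      p.2.elim (bif f a p.1 then some p.1 else none) some) := by
    have := Computable.option_casesOn (o := fun q : α × ℕ × Option ℕ => q.2.2)
      (f := fun q : α × ℕ × Option ℕ => (bif f q.1 q.2.1 then some q.2.1 else none : Option ℕ))
      (g := fun (_ : α × ℕ × Option ℕ) (k : ℕ) => (some k : Option ℕ))
      (Computable.snd.comp Computable.snd) h1
      ((Computable.option_some.comp Computable.snd).to₂)
    refine this.of_eq ?_
    rintro ⟨a, i, o⟩
    cases o <;> rfl
  exact Computable.nat_rec hn (Computable.const none) h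

lemma LimF.search {y : α → Prop} (hy : LimP y) {p : α × ℕ → Prop} (hp : LimP p)
    (h : ∀ a, y a → ∃ w, p (a, w)) :
    ∃ f : α → ℕ, LimF f ∧ ∀ a, y a → p (a, f a) := by
  classical
  obtain ⟨y', hy1, hy2⟩ := hy
  obtain ⟨p', hp1, hp2⟩ := hp
  refine ⟨fun a => if hh : y a then Nat.find (h a hh) else 0,
    ⟨fun a s => bif y' a s then (srchB (fun w => p' (a, w) s) s).getD 0 else 0, ?_, ?_⟩, ?_⟩
  · have h1 : Computable (fun q : α × ℕ => srchB (fun w => p' (q.1, w) q.2) q.2) :=
      computable_srchB (f := fun (q : α × ℕ) (w : ℕ) => p' (q.1, w) q.2)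
        (hp1.comp (Computable.pair (Computable.fst.comp Computable.fst) Computable.snd)
          (Computable.snd.comp Computable.fst)).to₂ Computable.snd
    exact (Computable.cond (hy1.comp Computable.fst Computable.snd)
      (Computable.option_getD h1 (Computable.const 0)) (Computable.const 0)).to₂
  · intro a
    by_cases hh : y a
    · have hset : ∀ᶠ s in atTop, ∀ i ≤ Nat.find (h a hh), p' (a, i) s = decide (p (a, i)) := by
        have : ∀ i ∈ Finset.range (Nat.find (h a hh) + 1), ∀ᶠ s in atTop,
            p' (a, i) s = decide (p (a, i)) := fun i _ => hp2 (a, i)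
        have h2 := (Filter.eventually_all_finset _).2 this
        filter_upwards [h2] with s hs i hi
        exact hs i (Finset.mem_range.2 (by omega))
      filter_upwards [hy2 a, hset, eventually_gt_atTop (Nat.find (h a hh))] with s h1 h2 h3
      have e1 : y' a s = true := by rw [h1]; simp [hh]
      have e2 : srchB (fun w => p' (a, w) s) s = some (Nat.find (h a hh)) := by
        apply srchB_eq h3
        · intro i hi
          show p' (a, i) s = false
          rw [h2 i hi.le]
          simpa using Nat.find_min (h a hh) hi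
        · show p' (a, _) s = true
          rw [h2 _ le_rfl]
          simpa using Nat.find_spec (h a hh)
      rw [e1, e2, dif_pos hh]
      rfl
    · filter_upwards [hy2 a] with s h1
      have e1 : y' a s = false := by rw [h1]; simp [hh]
      rw [e1, dif_neg hh]
      rfl
  · intro a hh
    simp only [dif_pos hh]
    exact Nat.find_spec (h a hh)

lemma LimF.search' {p : α × ℕ → Prop} (hp : LimP p) (h : ∀ a, ∃ w, p (a, w)) :
    ∃ f : α → ℕ, LimF f ∧ ∀ a, p (a, f a) := by
  obtain ⟨f, h1, h2⟩ := LimF.search (y := fun _ : α => True)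
    (LimP.of_primrec (p := fun _ : α => True) (by
      exact (Primrec.eq.comp (Primrec.const 0) (Primrec.const 0)).of_eq (by simp))) hp
    (fun a _ => h a)
  exact ⟨f, h1, fun a => h2 a trivial⟩

lemma LimF.pre {A : ℕ → Bool} (hA : LimF A) : LimF (fun t : ℕ => JumpDeg.pre A t) := by
  have h : LimF (fun p : ℕ × List Bool => p.2 ++ [A p.1]) := by
    have h1 : Computable (fun q : List Bool × Bool => q.1 ++ [q.2]) :=
      (Primrec.list_append.comp Primrec.fst (Primrec.list_cons.comp Primrec.snd
        (Primrec.const []))).to_comp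
    exact LimF.comp (LimF.of_computable h1) (LimF.pair (LimF.of_computable Computable.snd)
      (LimF.comp hA (LimF.of_computable Computable.fst)))
  refine (LimF.iter (s0 := ([] : List Bool)) h).congr ?_
  intro n
  induction n with
  | zero => rfl
  | succ n ih =>
    simp only at ih ⊢
    rw [ih]
    simp [JumpDeg.pre, List.range_succ]

/-! ### totality is not `Σ⁰₂` -/

/-- The set of (codes of) total functions is not of the form `∃ k, p (c, k)` with `p` limit
computable. -/
theorem tot_not_sigma2 : ¬ ∃ p : Code × ℕ → Prop, LimP p ∧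
    ∀ c : Code, (∀ n, (c.eval n).Dom) ↔ ∃ k, p (c, k) := by
  rintro ⟨p, ⟨g, hg1, hg2⟩, hp⟩
  let r : (Code × ℕ × ℕ) → ℕ → Bool := fun q i =>
    bexB (fun t => (decide (i.unpair.2 ≤ t)) && !(g (q.1, i.unpair.1) t)) (q.2.2 + 1)
  let q : (Code × ℕ) → ℕ → Bool := fun a T => ballB (r (a.1, a.2, T)) (a.2 + 1)
  have hr : Computable₂ r := by
    have h1 : Computable₂ (fun (a : (Code × ℕ × ℕ) × ℕ) (t : ℕ) =>
        (decide (a.2.unpair.2 ≤ t)) && !(g (a.1.1, a.2.unpair.1) t)) := by
      have h2 : Computable (fun b : ((Code × ℕ × ℕ) × ℕ) × ℕ => decide (b.1.2.unpair.2 ≤ b.2)) := by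
        have h3 : PrimrecPred (fun b : ((Code × ℕ × ℕ) × ℕ) × ℕ => b.1.2.unpair.2 ≤ b.2) :=
          Primrec.nat_le.comp (Primrec.snd.comp (Primrec.unpair.comp
            (Primrec.snd.comp Primrec.fst))) Primrec.snd
        obtain ⟨_, h3⟩ := h3
        refine h3.to_comp.of_eq fun b => ?_
        congr
      have h4 : Computable (fun b : ((Code × ℕ × ℕ) × ℕ) × ℕ =>
          g (b.1.1.1, b.1.2.unpair.1) b.2) :=
        hg1.comp (Computable.pair
          (Computable.fst.comp (Computable.fst.comp Computable.fst))
          (Computable.fst.comp (Computable.unpair.comp (Computable.snd.comp Computable.fst))))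
          Computable.snd
      exact (Primrec.and.to_comp.comp h2 (Primrec.not.to_comp.comp h4)).to₂
    exact (computable_bexB h1 (n := fun a : (Code × ℕ × ℕ) × ℕ => a.1.2.2 + 1)
      (Computable.succ.comp (Computable.snd.comp (Computable.snd.comp Computable.fst)))).to₂
  have hq : Computable₂ q := by
    have h1 : Computable₂ (fun (a : (Code × ℕ) × ℕ) (i : ℕ) => r (a.1.1, a.1.2, a.2) i) :=
      (hr.comp (Computable.pair (Computable.fst.comp (Computable.fst.comp Computable.fst))
        (Computable.pair (Computable.snd.comp (Computable.fst.comp Computable.fst))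
          (Computable.snd.comp Computable.fst))) Computable.snd).to₂
    exact (computable_ballB h1 (n := fun a : (Code × ℕ) × ℕ => a.1.2 + 1)
      (Computable.succ.comp (Computable.snd.comp Computable.fst))).to₂
  have hF : Partrec₂ (fun (c : Code) (n : ℕ) => Nat.rfind (fun T => Part.some (q (c, n) T))) := by
    have : Partrec₂ (fun (a : Code × ℕ) (T : ℕ) => (Part.some (q a T) : Part Bool)) := hq.partrec₂
    exact (Partrec.rfind this).to₂
  obtain ⟨c, hc⟩ := Code.fixed_point₂ hF
  have hdom : ∀ n, (c.eval n).Dom ↔ ∃ T, q (c, n) T = true := by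
    intro n
    rw [hc]
    constructor
    · intro h
      obtain ⟨T, h1, _⟩ := Nat.rfind_dom.1 h
      exact ⟨T, by simpa using h1⟩
    · rintro ⟨T, hT⟩
      exact Nat.rfind_dom.2 ⟨T, by simpa using hT, fun {m} _ => trivial⟩
  have hqT : ∀ n T, q (c, n) T = true ↔ ∀ i < n + 1, ∃ t < T + 1, i.unpair.2 ≤ t ∧
      g (c, i.unpair.1) t = false := by
    intro n T
    simp only [q, r, ballB_iff, bexB_iff, Bool.and_eq_true, decide_eq_true_eq, Bool.not_eq_true']
  by_cases htot : ∀ n, (c.eval n).Dom
  · obtain ⟨k, hk⟩ := (hp c).1 htot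
    obtain ⟨s0, hs0⟩ := eventually_atTop.1 (hg2 (c, k))
    obtain ⟨T, hT⟩ := (hdom (Nat.pair k s0)).1 (htot _)
    obtain ⟨t, _, h1, h2⟩ := (hqT _ _).1 hT (Nat.pair k s0) (Nat.lt_succ_self _)
    rw [Nat.unpair_pair] at h1 h2
    simp only at h1 h2
    rw [hs0 t h1] at h2
    simp [hk] at h2
  · apply htot
    intro n
    rw [hdom]
    -- every pair eventually gets a refutation
    have hno : ∀ k, ¬ p (c, k) := fun k hk => htot ((hp c).2 ⟨k, hk⟩)
    have hex : ∀ i : ℕ, ∃ t, i.unpair.2 ≤ t ∧ g (c, i.unpair.1) t = false := by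
      intro i
      obtain ⟨s0, hs0⟩ := eventually_atTop.1 (hg2 (c, i.unpair.1))
      refine ⟨max s0 i.unpair.2, le_max_right _ _, ?_⟩
      rw [hs0 _ (le_max_left _ _)]
      simp [hno]
    choose t ht1 ht2 using hex
    refine ⟨(Finset.range (n + 1)).sup t, (hqT _ _).2 fun i hi => ⟨t i, ?_, ht1 i, ht2 i⟩⟩
    exact Nat.lt_succ_of_le (Finset.le_sup (f := t) (Finset.mem_range.2 hi))

/-! ### low sets -/

/-- `X` is low: its jump is limit computable -/
def Low (X : ℕ → Bool) : Prop := LimF (JumpDeg.jump X)

lemma Low.limP {X : ℕ → Bool} (hX : Low X) {S : (ℕ → Bool) → α → Prop} (hS : Sig {X} S) :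
    LimP (fun a => S X a) := by
  obtain ⟨c, hc⟩ := sig_smn hS
  have h1 : LimP (fun a : α => JumpDeg.jump X (qq c a) = true) :=
    LimP.of_eq_true (LimF.comp (f := JumpDeg.jump X) (g := fun a : α => qq c a) hX
      (LimF.of_computable (primrec_qq.comp (Primrec.const c) Primrec.id).to_comp))
  exact h1.congr fun a => (hc X rfl a).symm

lemma Low.of_red {X Y : ℕ → Bool} (hX : Low X) (h : Red Y X) : Low Y := by
  have h1 : Sig {X} (fun _ (e : ℕ) => JumpDeg.jump Y e = true) :=
    h.sig (S := fun Y (e : ℕ) => JumpDeg.jump Y e = true) jump_sig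
  have h2 : LimP (fun e : ℕ => JumpDeg.jump Y e = true) := hX.limP h1
  unfold LimP at h2
  refine LimF.congr h2 fun e => ?_
  have key : ∀ (b : Bool) (_ : Decidable (b = true)), decide (b = true) = b := by
    intro b _
    cases b <;> simp
  exact key _ _

end

end HighD2
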