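import Mathlib
import Pool.Agent.HighD2.Lim

/-!
Compactness of Cantor space in terms of strings, and the low basis theorem relative to a low set.
-/

namespace HighD2

open Encodable Denumerable Filter
open Nat.Partrec (Code)
open JumpDeg

/-! ### strings coded by numbers -/

/-- the `i`-th bit of `z` -/
def bitOf (z i : ℕ) : Bool := decide (z / 2 ^ i % 2 = 1)

/-- the string of the first `b` bits of `z` -/
def bitStr (z b : ℕ) : List Bool := (List.range b).map (bitOf z)

lemma bitStr_eq_pre (z b : ℕ) : bitStr z b = JumpDeg.pre (bitOf z) b := rfl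

lemma exists_bits (Z : ℕ → Bool) (b : ℕ) : ∃ z < 2 ^ b, ∀ i < b, bitOf z i = Z i := by
  induction b generalizing Z with
  | zero => exact ⟨0, by simp, fun i hi => by omega⟩
  | succ b ih =>
    obtain ⟨z, hz, h⟩ := ih (fun i => Z (i + 1))
    refine ⟨2 * z + (if Z 0 = true then 1 else 0), ?_, ?_⟩
    · rw [pow_succ]
      split_ifs <;> omega
    · intro i hi
      cases i with
      | zero =>
        unfold bitOf
        cases hZ : Z 0
        · simp
        · simp only [if_true, pow_zero, Nat.div_one, decide_eq_true_eq]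
          omega
      | succ i =>
        rw [← h i (by omega)]
        unfold bitOf
        congr 2
        rw [pow_succ, mul_comm (2 ^ i) 2, ← Nat.div_div_eq_div_mul]
        congr 2
        split_ifs <;> omega

lemma exists_bitStr (Z : ℕ → Bool) (b : ℕ) : ∃ z < 2 ^ b, bitStr z b = JumpDeg.pre Z b := by
  obtain ⟨z, hz, h⟩ := exists_bits Z b
  exact ⟨z, hz, pre_congr h⟩

lemma primrec_pow2 : Primrec (fun n : ℕ => 2 ^ n) := by
  have hpow : Primrec₂ ((· ^ ·) : ℕ → ℕ → ℕ) := Primrec₂.unpaired'.1 Nat.Primrec.pow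
  exact hpow.comp (Primrec.const 2) Primrec.id

lemma primrec_bitOf : Primrec₂ bitOf := by
  have h : PrimrecPred (fun p : ℕ × ℕ => p.1 / 2 ^ p.2 % 2 = 1) :=
    Primrec.eq.comp (Primrec.nat_mod.comp (Primrec.nat_div.comp Primrec.fst
      (primrec_pow2.comp Primrec.snd)) (Primrec.const 2)) (Primrec.const 1)
  obtain ⟨_, h⟩ := h
  have h2 : Primrec (fun p : ℕ × ℕ => bitOf p.1 p.2) := by
    refine h.of_eq fun p => ?_
    unfold bitOf
    congr
  exact h2.to₂

lemma primrec_bitStr : Primrec₂ bitStr := by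
  have h : Primrec (fun p : ℕ × ℕ => (List.range p.2).map (fun i => bitOf p.1 i)) :=
    Primrec.list_map (Primrec.list_range.comp Primrec.snd)
      (primrec_bitOf.comp (Primrec.fst.comp Primrec.fst) Primrec.snd).to₂
  exact (h.of_eq fun p => rfl).to₂

/-! ### compactness -/

lemma isOpen_pre (P : List Bool → Prop) (t : ℕ) : IsOpen {Z : ℕ → Bool | P (JumpDeg.pre Z t)} := by
  have h1 : Continuous (fun (Z : ℕ → Bool) (i : Fin t) => Z i) := by fun_prop
  have h2 : {Z : ℕ → Bool | P (JumpDeg.pre Z t)} =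
      (fun (Z : ℕ → Bool) (i : Fin t) => Z i) ⁻¹' {w | P (List.ofFn w)} := by
    ext Z
    have : JumpDeg.pre Z t = List.ofFn (fun i : Fin t => Z i) := by
      unfold JumpDeg.pre
      apply List.ext_getElem
      · simp
      · intro i h1 h2
        simp
    simp [this]
  rw [h2]
  exact (isOpen_discrete _).preimage h1

lemma compactness {P : List Bool → Prop} (hm : ∀ σ τ, σ <+: τ → P σ → P τ)
    (h : ∀ Z : ℕ → Bool, ∃ t, P (JumpDeg.pre Z t)) : ∃ b, ∀ Z : ℕ → Bool, P (JumpDeg.pre Z b) := by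
  have h1 : IsCompact (Set.univ : Set (ℕ → Bool)) := isCompact_univ
  have h2 : ∀ t : ℕ, IsOpen {Z : ℕ → Bool | P (JumpDeg.pre Z t)} := fun t => isOpen_pre P t
  have hdir : Directed (· ⊆ ·) (fun t : ℕ => {Z : ℕ → Bool | P (JumpDeg.pre Z t)}) := by
    apply Monotone.directed_le
    intro s t hst Z hZ
    exact hm _ _ (pre_prefix_pre Z hst) hZ
  obtain ⟨b, hb⟩ := h1.elim_directed_cover _ h2 (by
    intro Z _
    obtain ⟨t, ht⟩ := h Z
    exact Set.mem_iUnion.2 ⟨t, ht⟩) hdir
  exact ⟨b, fun Z => hb (Set.mem_univ Z)⟩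

/-- nested nonempty `Π⁰₁` classes have a common member -/
lemma nested {W : ℕ → List Bool → Prop} (hm : ∀ e σ τ, σ <+: τ → W e σ → W e τ)
    (hmono : ∀ e σ, W e σ → W (e + 1) σ)
    (hne : ∀ e, ∃ Z : ℕ → Bool, ∀ t, ¬ W e (JumpDeg.pre Z t)) :
    ∃ Z : ℕ → Bool, ∀ e t, ¬ W e (JumpDeg.pre Z t) := by
  by_contra hcon
  push Not at hcon
  have hmono' : ∀ e e' σ, e ≤ e' → W e σ → W e' σ := by
    intro e e' σ h hW
    induction h with
    | refl => exact hW
    | step _ ih => exact hmono _ _ ih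
  obtain ⟨b, hb⟩ := compactness (P := fun σ => ∃ e ≤ σ.length, W e σ) (by
    rintro σ τ h ⟨e, he, hW⟩
    exact ⟨e, he.trans h.length_le, hm _ _ _ h hW⟩) (by
    intro Z
    obtain ⟨e, t, h⟩ := hcon Z
    refine ⟨max e t, e, by simp, hm _ _ _ (pre_prefix_pre Z (le_max_right _ _)) h⟩)
  obtain ⟨Z, hZ⟩ := hne b
  obtain ⟨e, he, hW⟩ := hb Z
  simp only [length_pre] at he
  exact hZ b (hmono' _ _ _ he hW)

/-! ### the low basis theorem -/

/-- extension of a string by `false` -/
def ext (ζ : List Bool) : ℕ → Bool := fun i => ζ.getD i false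

/-- some index in `D` is seen to be in the jump of `X ⊕ ζ` -/
def Seen (X : ℕ → Bool) (D : List ℕ) (ζ : List Bool) : Prop :=
  ∃ e ∈ D, ∃ t ≤ 2 * ζ.length,
    (Code.eval (ofNat Code e) (encode (JumpDeg.pre (JumpDeg.join X (ext ζ)) t))).Dom

lemma pre_join_ext (X : ℕ → Bool) {ζ τ : List Bool} (h : ζ <+: τ) {t : ℕ}
    (ht : t ≤ 2 * ζ.length) :
    JumpDeg.pre (JumpDeg.join X (ext ζ)) t = JumpDeg.pre (JumpDeg.join X (ext τ)) t := by
  apply pre_congr
  intro i hi
  unfold JumpDeg.join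
  split_ifs with h2
  · rfl
  · unfold ext
    obtain ⟨ρ, rfl⟩ := h
    rw [List.getD_append _ _ _ _ (by omega)]

lemma pre_join_ext' (X Z : ℕ → Bool) {n t : ℕ} (ht : t ≤ 2 * n) :
    JumpDeg.pre (JumpDeg.join X (ext (JumpDeg.pre Z n))) t = JumpDeg.pre (JumpDeg.join X Z) t := by
  apply pre_congr
  intro i hi
  unfold JumpDeg.join
  split_ifs with h2
  · rfl
  · unfold ext
    simp [List.getD, getElem?_pre_of_lt Z (show i / 2 < n by omega)]

lemma Seen.mono {X : ℕ → Bool} {D : List ℕ} {ζ τ : List Bool} (h : ζ <+: τ) (hs : Seen X D ζ) :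
    Seen X D τ := by
  obtain ⟨e, he, t, ht, hd⟩ := hs
  refine ⟨e, he, t, ht.trans (by have := h.length_le; omega), ?_⟩
  rwa [← pre_join_ext X h ht]

lemma sig_seen (D' : Set (ℕ → Bool)) :
    Sig D' (fun X (q : List ℕ × List Bool) => Seen X q.1 q.2) := by
  -- ∃ k ρ, k < |D| ∧ |ρ| ≤ 2|ζ| ∧ eval .. ∧ ∀ i < |ρ|, join value
  have h1 : Sig D' (fun X (q : ((List ℕ × List Bool) × ℕ × List Bool) × ℕ) =>
      JumpDeg.join X (ext q.1.1.2) q.2 = q.1.2.2.getD q.2 false) := by
    have pm : PrimrecPred (fun q : ((List ℕ × List Bool) × ℕ × List Bool) × ℕ => q.2 % 2 = 0) :=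
      Primrec.eq.comp (Primrec.nat_mod.comp Primrec.snd (Primrec.const 2)) (Primrec.const 0)
    have hg : Primrec (fun q : ((List ℕ × List Bool) × ℕ × List Bool) × ℕ =>
        q.1.2.2.getD q.2 false) :=
      (Primrec.list_getD false).comp
        (Primrec.snd.comp (Primrec.snd.comp Primrec.fst)) Primrec.snd
    have hz : Primrec (fun q : ((List ℕ × List Bool) × ℕ × List Bool) × ℕ =>
        q.1.1.2.getD (q.2 / 2) false) :=
      (Primrec.list_getD false).comp (Primrec.snd.comp (Primrec.fst.comp Primrec.fst))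
        (Primrec.nat_div.comp Primrec.snd (Primrec.const 2))
    have ho : Sig D' (fun X (q : ((List ℕ × List Bool) × ℕ × List Bool) × ℕ) =>
        X (q.2 / 2) = q.1.2.2.getD q.2 false) :=
      Sig.oracle (Primrec.nat_div.comp Primrec.snd (Primrec.const 2)) hg
    refine (((Sig.of_prim pm).and ho).or ((Sig.of_prim pm.not).and
      (Sig.of_prim (Primrec.eq.comp hz hg)))).congr ?_
    intro X _ q
    unfold JumpDeg.join ext
    by_cases h : q.2 % 2 = 0
    · simp [h]
    · simp [h]
  have h2 := h1.ball (f := fun q : (List ℕ × List Bool) × ℕ × List Bool => q.2.2.length)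
    (Primrec.list_length.comp (Primrec.snd.comp Primrec.snd))
  have h3 : Sig D' (fun _ (q : (List ℕ × List Bool) × ℕ × List Bool) =>
      (Code.eval (ofNat Code (q.1.1.getD q.2.1 0)) (encode q.2.2)).Dom) :=
    sig_dom.comp (f := fun q : (List ℕ × List Bool) × ℕ × List Bool => (q.1.1.getD q.2.1 0, q.2.2))
      (Primrec.pair ((Primrec.list_getD 0).comp (Primrec.fst.comp Primrec.fst)
        (Primrec.fst.comp Primrec.snd)) (Primrec.snd.comp Primrec.snd))
  have h4 : Sig D' (fun _ (q : (List ℕ × List Bool) × ℕ × List Bool) =>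
      q.2.1 < q.1.1.length ∧ q.2.2.length ≤ 2 * q.1.2.length) := by
    refine (Sig.of_prim (Primrec.nat_lt.comp (Primrec.fst.comp Primrec.snd)
      (Primrec.list_length.comp (Primrec.fst.comp Primrec.fst)))).and (Sig.of_prim
        (Primrec.nat_le.comp (Primrec.list_length.comp (Primrec.snd.comp Primrec.snd))
        (Primrec.nat_mul.comp (Primrec.const 2)
          (Primrec.list_length.comp (Primrec.snd.comp Primrec.fst)))))
  refine ((h4.and h3).and h2).ex.congr ?_
  rintro X _ ⟨D, ζ⟩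
  constructor
  · rintro ⟨e, he, t, ht, hd⟩
    obtain ⟨k, hk, rfl⟩ := List.getElem_of_mem he
    refine ⟨(k, JumpDeg.pre (JumpDeg.join X (ext ζ)) t), ⟨⟨hk, by simpa using ht⟩, ?_⟩, ?_⟩
    · simpa [List.getD, hk] using hd
    · intro i hi
      simp only [length_pre] at hi
      simp [List.getD, getElem?_pre_of_lt _ hi]
  · rintro ⟨⟨k, ρ⟩, ⟨⟨hk, hρ⟩, hd⟩, hi⟩
    simp only at hk hρ hd hi
    refine ⟨D[k], List.getElem_mem hk, ρ.length, hρ, ?_⟩
    have : ρ = JumpDeg.pre (JumpDeg.join X (ext ζ)) ρ.length := by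
      rw [eq_pre_iff]
      intro i hi'
      rw [hi i hi']
      simp [hi']
    rw [← this]
    simpa [List.getD, hk] using hd

lemma jump_join_iff {X Z : ℕ → Bool} {e : ℕ} :
    jump (JumpDeg.join X Z) e = true ↔ ∃ n, Seen X [e] (JumpDeg.pre Z n) := by
  rw [jump_eq_true]
  constructor
  · rintro ⟨t, ht⟩
    refine ⟨t, e, by simp, t, by simp; omega, ?_⟩
    rwa [pre_join_ext' X Z (by omega)]
  · rintro ⟨n, e', he', t, ht, hd⟩
    simp only [List.mem_singleton] at he'
    subst he'
    simp only [length_pre] at ht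
    rw [pre_join_ext' X Z ht] at hd
    exact ⟨t, hd⟩

theorem low_basis {X : ℕ → Bool} (hX : Low X) {U : (ℕ → Bool) → List Bool → Prop}
    (hU : Sig {X} U) (hm : ∀ σ τ, σ <+: τ → U X σ → U X τ)
    (hne : ∃ Z : ℕ → Bool, ∀ t, ¬ U X (JumpDeg.pre Z t)) :
    ∃ Z : ℕ → Bool, (∀ t, ¬ U X (JumpDeg.pre Z t)) ∧ Low (JumpDeg.join X Z) := by
  classical
  let W : List ℕ → List Bool → Prop := fun D ζ => U X ζ ∨ Seen X D ζ
  let Em : List ℕ → Prop := fun D => ∃ b, ∀ z < 2 ^ b, W D (bitStr z b)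
  have hWm : ∀ D σ τ, σ <+: τ → W D σ → W D τ := fun D σ τ h hW =>
    hW.imp (hm σ τ h) (Seen.mono h)
  have hEm : LimP Em := by
    have h1 : Sig {X} (fun X (q : (List ℕ × ℕ) × ℕ) =>
        U X (bitStr q.2 q.1.2) ∨ Seen X q.1.1 (bitStr q.2 q.1.2)) := by
      have hb : Primrec (fun q : (List ℕ × ℕ) × ℕ => bitStr q.2 q.1.2) :=
        primrec_bitStr.comp Primrec.snd (Primrec.snd.comp Primrec.fst)
      exact (hU.comp hb).or ((sig_seen {X}).comp
        (f := fun q : (List ℕ × ℕ) × ℕ => (q.1.1, bitStr q.2 q.1.2))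
        (Primrec.pair (Primrec.fst.comp Primrec.fst) hb))
    have h2 := (h1.ball (f := fun q : List ℕ × ℕ => 2 ^ q.2)
      (primrec_pow2.comp Primrec.snd)).ex
    exact hX.limP h2
  let D : ℕ → List ℕ := fun n =>
    Nat.rec [] (fun e IH => if Em (IH ++ [e]) then IH else IH ++ [e]) n
  have hD0 : D 0 = [] := rfl
  have hD1 : ∀ e, D (e + 1) = if Em (D e ++ [e]) then D e else D e ++ [e] := fun e => rfl
  have happ : LimF (fun p : ℕ × List ℕ => p.2 ++ [p.1]) :=
    LimF.of_computable (Primrec.list_append.comp Primrec.snd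
      (Primrec.list_cons.comp Primrec.fst (Primrec.const []))).to_comp
  have hDL : LimF D := by
    have hs : LimF (fun p : ℕ × List ℕ =>
        (open Classical in if Em (p.2 ++ [p.1]) then p.2 else p.2 ++ [p.1] : List ℕ)) :=
      LimF.ite (LimP.comp hEm happ) (LimF.of_computable Computable.snd) happ
    refine (LimF.iter (s0 := ([] : List ℕ)) hs).congr fun n => ?_
    induction n with
    | zero => rfl
    | succ n ih =>
      rw [hD1, ← ih]
  have hWD : ∀ e σ, W (D e) σ → W (D (e + 1)) σ := by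
    intro e σ h
    rw [hD1]
    split_ifs
    · exact h
    · refine h.imp id ?_
      rintro ⟨e', he', t, ht⟩
      exact ⟨e', by simp [he'], t, ht⟩
  have hneD : ∀ e, ∃ Z : ℕ → Bool, ∀ t, ¬ W (D e) (JumpDeg.pre Z t) := by
    intro e
    induction e with
    | zero =>
      obtain ⟨Z, hZ⟩ := hne
      refine ⟨Z, fun t => ?_⟩
      rintro (h | ⟨e', he', _⟩)
      · exact hZ t h
      · rw [hD0] at he'
        cases he'
    | succ e ih =>
      rw [hD1]
      split_ifs with hE
      · exact ih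
      · by_contra hcon
        push Not at hcon
        obtain ⟨b, hb⟩ := compactness (hWm (D e ++ [e])) hcon
        exact hE ⟨b, fun z _ => hb _⟩
  obtain ⟨Z, hZ⟩ := nested (W := fun e => W (D e)) (fun e => hWm (D e)) hWD hneD
  refine ⟨Z, fun t h => hZ 0 t (Or.inl h), ?_⟩
  have key : ∀ e, jump (JumpDeg.join X Z) e = true ↔ Em (D e ++ [e]) := by
    intro e
    rw [jump_join_iff]
    constructor
    · rintro ⟨n, hn⟩
      by_contra hE
      refine hZ (e + 1) n ?_
      rw [hD1, if_neg hE]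
      right
      obtain ⟨e', he', t, ht⟩ := hn
      exact ⟨e', by simp at he'; simp [he'], t, ht⟩
    · rintro ⟨b, hb⟩
      obtain ⟨z, hz, hzb⟩ := exists_bitStr Z b
      have h1 := hb z hz
      rw [hzb] at h1
      have h2 := hZ e b
      rcases h1 with h1 | ⟨e', he', t, ht⟩
      · exact absurd (Or.inl h1) h2
      · rcases List.mem_append.1 he' with h3 | h3
        · exact absurd (Or.inr ⟨e', h3, t, ht⟩) h2
        · exact ⟨b, e', h3, t, ht⟩
  have h1 : LimP (fun e : ℕ => Em (D e ++ [e])) := by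
    have : LimF (fun e : ℕ => D e ++ [e]) :=
      LimF.comp happ (LimF.pair (LimF.of_computable Computable.id) hDL)
    exact LimP.comp hEm this
  have h2 : LimP (fun e : ℕ => jump (JumpDeg.join X Z) e = true) := h1.congr fun e => (key e).symm
  unfold LimP at h2
  refine LimF.congr h2 fun e => ?_
  have key2 : ∀ (b : Bool) (_ : Decidable (b = true)), decide (b = true) = b := by
    intro b _
    cases b <;> simp
  exact key2 _ _

end HighD2
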