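import Mathlib
import Pool.Agent.HighD2.Basis

/-!
Uniform low basis theorem, low sets are not high, uniformization of semi-decidable predicates.
-/

set_option autoImplicit false

namespace HighD2

open Encodable Denumerable Filter
open Nat.Partrec (Code)
open JumpDeg

/-- the empty oracle -/
def zeroO : ℕ → Bool := fun _ => false

section
variable {α β γ σ : Type*} [Primcodable α] [Primcodable β] [Primcodable γ] [Primcodable σ]

/-- parametrised iteration of a limit computable function -/
lemma LimF.iter' {s0 : α → σ} (h0 : LimF s0) {step : (α × ℕ) × σ → σ} (hs : LimF step) :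
    LimF (fun q : α × ℕ =>
      (Nat.rec (s0 q.1) (fun n IH => step ((q.1, n), IH)) q.2 : σ)) := by
  obtain ⟨g, hg1, hg2⟩ := hs
  obtain ⟨g0, hg01, hg02⟩ := h0
  refine ⟨fun q s => (Nat.rec (g0 q.1 s) (fun n IH => g ((q.1, n), IH) s) q.2 : σ), ?_, ?_⟩
  · have h : Computable₂ (fun (a : (α × ℕ) × ℕ) (p : ℕ × σ) => g ((a.1.1, p.1), p.2) a.2) :=
      (hg1.comp (Computable.pair (Computable.pair
        (Computable.fst.comp (Computable.fst.comp Computable.fst))
        (Computable.fst.comp Computable.snd)) (Computable.snd.comp Computable.snd))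
        (Computable.snd.comp Computable.fst)).to₂
    exact (Computable.nat_rec (f := fun a : (α × ℕ) × ℕ => a.1.2)
      (g := fun a : (α × ℕ) × ℕ => g0 a.1.1 a.2)
      (Computable.snd.comp Computable.fst)
      (hg01.comp (Computable.fst.comp Computable.fst) Computable.snd) h).to₂
  · rintro ⟨a, n⟩
    induction n with
    | zero => exact hg02 a
    | succ n ih =>
      filter_upwards [ih, hg2 ((a, n),
        (Nat.rec (s0 a) (fun n IH => step ((a, n), IH)) n : σ))] with s h1 h2
      show g ((a, n), (Nat.rec (g0 a s) (fun n IH => g ((a, n), IH) s) n : σ)) s = _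
      rw [h1, h2]

lemma bool_key (b : Bool) (_ : Decidable (b = true)) : decide (b = true) = b := by
  cases b <;> simp

lemma LimP.toF {f : α → Bool} (h : LimP (fun a => f a = true)) : LimF f := by
  unfold LimP at h
  exact LimF.congr h fun e => bool_key _ _

lemma primrec_pre_zero : Primrec (fun t : ℕ => JumpDeg.pre zeroO t) := by
  have h : Primrec (fun t : ℕ => (List.range t).map (fun _ => false)) :=
    Primrec.list_map (Primrec.list_range.comp Primrec.id) (Primrec.const false).to₂
  exact h

lemma limP_of_sig_zero {S : (ℕ → Bool) → α → Prop} (hS : Sig {zeroO} S) :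
    LimP (fun a => S zeroO a) := by
  classical
  obtain ⟨R, h1, h2, h3⟩ := hS
  have h4 : PrimrecPred (fun q : α × ℕ => R (q.1, JumpDeg.pre zeroO q.2)) :=
    h1.comp (Primrec.pair Primrec.fst (primrec_pre_zero.comp Primrec.snd))
  refine ⟨fun a t => decide (R (a, JumpDeg.pre zeroO t)), ?_, fun a => ?_⟩
  · have h5 : Primrec₂ (fun (a : α) (t : ℕ) => decide (R (a, JumpDeg.pre zeroO t))) :=
      (PrimrecPred.decide h4).to₂
    exact h5.to_comp
  · by_cases h : S zeroO a
    · obtain ⟨t, ht⟩ := (h3 zeroO rfl a).1 h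
      filter_upwards [eventually_ge_atTop t] with s hs
      have : R (a, JumpDeg.pre zeroO s) := h2 a _ _ (pre_prefix_pre _ hs) ht
      simp [this, h]
    · refine Eventually.of_forall fun s => ?_
      have : ¬ R (a, JumpDeg.pre zeroO s) := fun hR => h ((h3 zeroO rfl a).2 ⟨s, hR⟩)
      simp [this, h]

lemma low_zero : Low zeroO :=
  LimP.toF (limP_of_sig_zero (S := fun X (e : ℕ) => jump X e = true) jump_sig)

/-- semi-decidable predicates without oracle are limit computable -/
lemma limP_of_sig {D : Set (ℕ → Bool)} (hD : zeroO ∈ D) {S : α → Prop}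
    (hS : Sig D (fun _ a => S a)) : LimP S :=
  limP_of_sig_zero (hS.mono (by rintro _ rfl; exact hD))

lemma LimF.of_low {X : ℕ → Bool} (hX : Low X) : LimF X := by
  apply LimP.toF
  have h : Sig {X} (fun X (n : ℕ) => X n = true) := Sig.oracle Primrec.id (Primrec.const true)
  exact hX.limP h

/-- uniformization of a semi-decidable relation -/
lemma uniformize {S : α × ℕ → Prop} (hS : Sig {zeroO} (fun _ q => S q)) :
    ∃ G : α →. ℕ, Partrec G ∧ (∀ a b, b ∈ G a → S (a, b)) ∧ ∀ a b, S (a, b) → (G a).Dom := by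
  classical
  obtain ⟨R, h1, h2, h3⟩ := hS
  have h4 : PrimrecPred (fun q : α × ℕ =>
      R ((q.1, q.2.unpair.1), JumpDeg.pre zeroO q.2.unpair.2)) :=
    h1.comp (Primrec.pair (Primrec.pair Primrec.fst (Primrec.fst.comp (Primrec.unpair.comp
      Primrec.snd))) (primrec_pre_zero.comp (Primrec.snd.comp (Primrec.unpair.comp Primrec.snd))))
  have h5 : Primrec₂ (fun (a : α) (w : ℕ) =>
      decide (R ((a, w.unpair.1), JumpDeg.pre zeroO w.unpair.2))) :=
    (PrimrecPred.decide h4).to₂
  have h6 : Partrec₂ (fun (a : α) (w : ℕ) => (Part.some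
      (decide (R ((a, w.unpair.1), JumpDeg.pre zeroO w.unpair.2))) : Part Bool)) :=
    h5.to_comp.partrec₂
  refine ⟨fun a => (Nat.rfind (fun w => Part.some
    (decide (R ((a, w.unpair.1), JumpDeg.pre zeroO w.unpair.2))))).map
      (fun w => w.unpair.1), ?_, ?_, ?_⟩
  · exact (Partrec.rfind h6).map
      ((Computable.fst.comp (Computable.unpair.comp Computable.snd)).to₂)
  · intro a b hb
    obtain ⟨w, hw, rfl⟩ := (Part.mem_map_iff _).1 hb
    have := Nat.rfind_spec hw
    rw [Part.mem_some_iff] at this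
    have hR : R ((a, w.unpair.1), JumpDeg.pre zeroO w.unpair.2) := by
      simpa using this.symm
    exact (h3 zeroO rfl _).2 ⟨_, hR⟩
  · intro a b hb
    obtain ⟨t, ht⟩ := (h3 zeroO rfl _).1 hb
    refine Nat.rfind_dom.2 ⟨Nat.pair b t, ?_, fun {m} _ => trivial⟩
    rw [Part.mem_some_iff, Nat.unpair_pair]
    simpa using ht

/-! ### sets which are not high -/

/-- a function whose graph is semi-decidable in a low set does not dominate all computable
functions -/
theorem not_dom_of_low {X : ℕ → Bool} (hX : Low X) {h : ℕ → ℕ}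
    (hh : Sig {X} (fun _ (p : ℕ × ℕ) => h p.1 = p.2)) :
    ¬ ∀ f : ℕ → ℕ, Computable f → ∀ᶠ n in atTop, f n ≤ h n := by
  intro hdom
  apply tot_not_sigma2
  refine ⟨fun q => ∀ n, (Code.evaln (h n + q.2) q.1 n).isSome = true, ?_, ?_⟩
  · -- complement is Sig
    have h1 : Sig {X} (fun _ (r : (Code × ℕ) × ℕ × ℕ) =>
        h r.2.1 = r.2.2 ∧ (Code.evaln (r.2.2 + r.1.2) r.1.1 r.2.1).isSome = false) := by
      refine Sig.and ?_ (Sig.of_prim ?_)
      · exact hh.comp (f := fun r : (Code × ℕ) × ℕ × ℕ => r.2) Primrec.snd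
      · refine Primrec.eq.comp (Primrec.option_isSome.comp ?_) (Primrec.const _)
        exact Code.primrec_evaln.comp (Primrec.pair (Primrec.pair
          (Primrec.nat_add.comp (Primrec.snd.comp Primrec.snd) (Primrec.snd.comp Primrec.fst))
          (Primrec.fst.comp Primrec.fst)) (Primrec.fst.comp Primrec.snd))
    refine (hX.limP h1.ex).not.congr ?_
    rintro ⟨c, a⟩
    push Not
    constructor
    · intro h2 n
      have := h2 (n, h n) rfl
      simpa [Option.isSome_iff_ne_none] using this
    · rintro h2 ⟨n, v⟩ hv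
      simp only at hv ⊢
      subst hv
      simpa [Option.isSome_iff_ne_none] using h2 n
  · intro c
    constructor
    · intro htot
      have hex : ∀ n, ∃ k, (Code.evaln k c n).isSome = true := by
        intro n
        obtain ⟨k, hk⟩ := Code.evaln_complete.1 (Part.get_mem (htot n))
        exact ⟨k, Option.isSome_iff_exists.2 ⟨_, hk⟩⟩
      -- running time is computable
      have hT : Partrec (fun n : ℕ => Nat.rfind (fun k =>
          Part.some ((Code.evaln k c n).isSome))) := by
        have h1 : Primrec₂ (fun (n k : ℕ) => (Code.evaln k c n).isSome) :=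
          (Primrec.option_isSome.comp (Code.primrec_evaln.comp (Primrec.pair (Primrec.pair
            Primrec.snd (Primrec.const c)) Primrec.fst))).to₂
        have h2 : Partrec₂ (fun (n k : ℕ) =>
            (Part.some ((Code.evaln k c n).isSome) : Part Bool)) := h1.to_comp.partrec₂
        exact Partrec.rfind h2
      have hd : ∀ n, (Nat.rfind (fun k => Part.some ((Code.evaln k c n).isSome))).Dom := by
        intro n
        obtain ⟨k, hk⟩ := hex n
        exact Nat.rfind_dom.2 ⟨k, by rw [Part.mem_some_iff]; exact hk.symm, fun {m} _ => trivial⟩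
      have hTc : Computable (fun n : ℕ =>
          (Nat.rfind (fun k => Part.some ((Code.evaln k c n).isSome))).get (hd n)) := by
        refine hT.of_eq fun n => ?_
        simp
      obtain ⟨N, hN⟩ := eventually_atTop.1 (hdom _ hTc)
      have hTs : ∀ n, (Code.evaln ((Nat.rfind (fun k =>
          Part.some ((Code.evaln k c n).isSome))).get (hd n)) c n).isSome = true := by
        intro n
        have := Nat.rfind_spec (Part.get_mem (hd n))
        rw [Part.mem_some_iff] at this
        exact this.symm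
      have hm : ∀ k k' n, k ≤ k' → (Code.evaln k c n).isSome = true →
          (Code.evaln k' c n).isSome = true := by
        intro k k' n hk h
        obtain ⟨x, hx⟩ := Option.isSome_iff_exists.1 h
        exact Option.isSome_iff_exists.2 ⟨x, Code.evaln_mono hk hx⟩
      choose T hTT using hex
      refine ⟨(Finset.range N).sup T, fun n => ?_⟩
      by_cases hn : n < N
      · refine hm _ _ n ?_ (hTT n)
        exact (Finset.le_sup (f := T) (Finset.mem_range.2 hn)).trans (Nat.le_add_left _ _)
      · refine hm _ _ n ?_ (hTs n)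
        exact (hN n (by omega)).trans (Nat.le_add_right _ _)
    · rintro ⟨a, ha⟩ n
      obtain ⟨x, hx⟩ := Option.isSome_iff_exists.1 (ha n)
      exact Part.dom_iff_mem.2 ⟨x, Code.evaln_sound hx⟩

end

/-! ### the uniform low basis theorem -/

/-- the `q`-th column of `Y` -/
def col (Y : ℕ → Bool) (q : ℕ) : ℕ → Bool := fun i => Y (Nat.pair q i)

/-- initial segment of the `q`-th column of a string -/
def colL (ξ : List Bool) (q b : ℕ) : List Bool :=
  (List.range b).map (fun i => ξ.getD (Nat.pair q i) false)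

lemma primrec_colL : Primrec (fun p : List Bool × ℕ × ℕ => colL p.1 p.2.1 p.2.2) := by
  refine Primrec.list_map (Primrec.list_range.comp (Primrec.snd.comp Primrec.snd)) ?_
  exact ((Primrec.list_getD false).comp (Primrec.fst.comp Primrec.fst)
    (Primrec₂.natPair.comp (Primrec.fst.comp (Primrec.snd.comp Primrec.fst)) Primrec.snd)).to₂

lemma colL_pre {Y : ℕ → Bool} {t q b : ℕ} (h : ∀ i < b, Nat.pair q i < t) :
    colL (JumpDeg.pre Y t) q b = JumpDeg.pre (col Y q) b := by
  unfold colL
  conv_rhs => unfold JumpDeg.pre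
  apply List.map_congr_left
  intro i hi
  rw [List.mem_range] at hi
  simp [List.getD, getElem?_pre_of_lt Y (h i hi), col]

lemma colL_mono {ξ ξ' : List Bool} (hx : ξ <+: ξ') {q b : ℕ}
    (h : ∀ i < b, Nat.pair q i < ξ.length) : colL ξ q b = colL ξ' q b := by
  unfold colL
  apply List.map_congr_left
  intro i hi
  rw [List.mem_range] at hi
  obtain ⟨ρ, rfl⟩ := hx
  rw [List.getD_append _ _ _ _ (h i hi)]

theorem low_uniform {U : ℕ × List Bool → Prop} (hU : Sig {zeroO} (fun _ q => U q)) :
    ∃ Y : ℕ → Bool, Low Y ∧ ∀ q, (∃ Z : ℕ → Bool, ∀ t, ¬ U (q, JumpDeg.pre Z t)) →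
      ∀ t, ¬ U (q, JumpDeg.pre (col Y q) t) := by
  classical
  obtain ⟨R, h1, h2, h3⟩ := hU
  have h3' := h3 zeroO rfl
  -- decidable approximation
  let V : ℕ × List Bool → Prop := fun p =>
    ∃ l < p.2.length + 1, R ((p.1, p.2.take l), JumpDeg.pre zeroO p.2.length)
  have hV : PrimrecPred V := by
    have : PrimrecPred (fun a : (ℕ × List Bool) × ℕ =>
        R ((a.1.1, a.1.2.take a.2), JumpDeg.pre zeroO a.1.2.length)) :=
      h1.comp (Primrec.pair (Primrec.pair (Primrec.fst.comp Primrec.fst)
        (Primrec.list_take.comp Primrec.snd (Primrec.snd.comp Primrec.fst)))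
        (primrec_pre_zero.comp (Primrec.list_length.comp (Primrec.snd.comp Primrec.fst))))
    exact prim_exists_lt this (Primrec.succ.comp (Primrec.list_length.comp Primrec.snd))
  have hVm : ∀ q σ τ, σ <+: τ → V (q, σ) → V (q, τ) := by
    rintro q σ τ h ⟨l, hl, hR⟩
    have h4 := h.length_le
    refine ⟨l, by simp only at hl ⊢; omega, ?_⟩
    simp only at hl hR ⊢
    obtain ⟨ρ, rfl⟩ := h
    rw [List.take_append_of_le_length (by omega)]
    exact h2 _ _ _ (pre_prefix_pre _ h4) hR
  have hVU : ∀ q (Z : ℕ → Bool), (∃ t, V (q, JumpDeg.pre Z t)) ↔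
      ∃ t, U (q, JumpDeg.pre Z t) := by
    intro q Z
    constructor
    · rintro ⟨t, l, hl, hR⟩
      simp only [length_pre] at hl hR
      rw [take_pre, min_eq_left (by omega)] at hR
      exact ⟨l, (h3' _).2 ⟨_, hR⟩⟩
    · rintro ⟨t, ht⟩
      obtain ⟨s, hs⟩ := (h3' _).1 ht
      refine ⟨max t s, t, by simp, ?_⟩
      simp only [length_pre]
      rw [take_pre, min_eq_left (le_max_left _ _)]
      exact h2 _ _ _ (pre_prefix_pre _ (le_max_right _ _)) hs
  -- the product class
  let Fu : ℕ × ℕ → Prop := fun p => ∀ z < 2 ^ p.2, V (p.1, bitStr z p.2)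
  have hFu : PrimrecPred Fu := by
    have : PrimrecPred (fun a : (ℕ × ℕ) × ℕ => V (a.1.1, bitStr a.2 a.1.2)) :=
      hV.comp (Primrec.pair (Primrec.fst.comp Primrec.fst)
        (primrec_bitStr.comp Primrec.snd (Primrec.snd.comp Primrec.fst)))
    exact prim_forall_lt this (primrec_pow2.comp Primrec.snd)
  let W : List Bool → Prop := fun ξ => ∃ p : ℕ × ℕ,
    ((∀ i < p.2, Nat.pair p.1 i < ξ.length) ∧ V (p.1, colL ξ p.1 p.2)) ∧ ¬ Fu p
  have hW : Sig {zeroO} (fun _ ξ => W ξ) := by
    have hA : PrimrecPred (fun a : List Bool × ℕ × ℕ =>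
        ∀ i < a.2.2, Nat.pair a.2.1 i < a.1.length) := by
      have : PrimrecPred (fun a : (List Bool × ℕ × ℕ) × ℕ =>
          Nat.pair a.1.2.1 a.2 < a.1.1.length) :=
        Primrec.nat_lt.comp (Primrec₂.natPair.comp (Primrec.fst.comp (Primrec.snd.comp
          Primrec.fst)) Primrec.snd) (Primrec.list_length.comp (Primrec.fst.comp Primrec.fst))
      exact prim_forall_lt this (Primrec.snd.comp Primrec.snd)
    have hB : PrimrecPred (fun a : List Bool × ℕ × ℕ => V (a.2.1, colL a.1 a.2.1 a.2.2)) :=
      hV.comp (Primrec.pair (Primrec.fst.comp Primrec.snd) primrec_colL)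
    have hC : PrimrecPred (fun a : List Bool × ℕ × ℕ => ¬ Fu a.2) :=
      (hFu.comp Primrec.snd).not
    exact (Sig.of_prim ((hA.and hB).and hC)).ex
  have hWm : ∀ σ τ, σ <+: τ → W σ → W τ := by
    rintro σ τ h ⟨p, ⟨ha, hb⟩, hc⟩
    refine ⟨p, ⟨fun i hi => (ha i hi).trans_le h.length_le, ?_⟩, hc⟩
    rwa [← colL_mono h ha]
  have hcol : ∀ q, ∃ Z : ℕ → Bool, ∀ b, Fu (q, b) ∨ ¬ V (q, JumpDeg.pre Z b) := by
    intro q
    by_cases hb : ∃ b, Fu (q, b)
    · have hspec := Nat.find_spec hb
      have hmin : ∀ m < Nat.find hb, ¬ Fu (q, m) := fun m hm => Nat.find_min hb hm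
      rcases Nat.eq_zero_or_pos (Nat.find hb) with h0 | hpos
      · refine ⟨fun _ => false, fun b => Or.inl ?_⟩
        intro z _
        rw [h0] at hspec
        refine hVm q (bitStr 0 0) _ ?_ (hspec 0 (by simp))
        exact List.nil_prefix
      · have h4 := hmin (Nat.find hb - 1) (by omega)
        simp only [Fu] at h4
        push Not at h4
        obtain ⟨z, hz, hzV⟩ := h4
        refine ⟨bitOf z, fun b => ?_⟩
        by_cases hbb : b < Nat.find hb
        · right
          intro hV'
          apply hzV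
          rw [bitStr_eq_pre]
          exact hVm _ _ _ (pre_prefix_pre _ (by omega)) hV'
        · left
          intro z' _
          obtain ⟨z'', hz'', h5⟩ := exists_bitStr (bitOf z') (Nat.find hb)
          have h6 := hspec z'' hz''
          simp only at h6
          rw [h5] at h6
          refine hVm _ _ _ ?_ h6
          rw [bitStr_eq_pre]
          exact pre_prefix_pre _ (by omega)
    · push Not at hb
      by_contra hcon
      push Not at hcon
      have h5 : ∀ Z : ℕ → Bool, ∃ t, V (q, JumpDeg.pre Z t) := by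
        intro Z
        obtain ⟨b, _, hb2⟩ := hcon Z
        exact ⟨b, hb2⟩
      obtain ⟨b, hb'⟩ := compactness (P := fun ξ => V (q, ξ)) (fun σ τ h => hVm q σ τ h) h5
      exact hb b (fun z _ => hb' _)
  choose Zc hZc using hcol
  have hne : ∃ Z : ℕ → Bool, ∀ t, ¬ W (JumpDeg.pre Z t) := by
    refine ⟨fun m => Zc m.unpair.1 m.unpair.2, fun t => ?_⟩
    rintro ⟨⟨q, b⟩, ⟨ha, hb⟩, hc⟩
    simp only [length_pre] at ha hb hc
    rw [colL_pre ha] at hb
    have h6 : col (fun m => Zc m.unpair.1 m.unpair.2) q = Zc q := by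
      funext i
      simp [col]
    rw [h6] at hb
    rcases hZc q b with h7 | h7
    · exact hc h7
    · exact h7 hb
  obtain ⟨Z, hZ1, hZ2⟩ := low_basis low_zero (U := fun _ ξ => W ξ) hW hWm hne
  refine ⟨Z, hZ2.of_red (red_join_right _ _), ?_⟩
  rintro q ⟨Z', hZ'⟩ t ht
  obtain ⟨b, hb⟩ := (hVU q (col Z q)).2 ⟨t, ht⟩
  by_cases hF : Fu (q, b)
  · obtain ⟨z, hz, hzz⟩ := exists_bitStr Z' b
    have h8 := hF z hz
    simp only at h8
    rw [hzz] at h8
    obtain ⟨t', ht'⟩ := (hVU q Z').1 ⟨b, h8⟩
    exact hZ' t' ht'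
  · -- the refutation is found
    obtain ⟨s, hs⟩ : ∃ s, ∀ i < b, Nat.pair q i < s := by
      refine ⟨Nat.pair q b + 1, fun i hi => ?_⟩
      have := Nat.pair_lt_pair_right q hi
      omega
    refine hZ1 s ⟨(q, b), ⟨by simpa using hs, ?_⟩, hF⟩
    simp only
    rw [colL_pre hs]
    exact hb

end HighD2
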