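import Mathlib
import Pool.Agent.HighD2.Tools

/-!
Limit computable sequences of histories, and the escape lemma: every partial computable function
that is defined on all histories is bounded by a total computable function.
-/

set_option autoImplicit false

namespace HighD2

open Encodable Denumerable Filter
open Nat.Partrec (Code)
open JumpDeg

section
variable {P S : Type*} [Primcodable P] [Primcodable S] [DecidableEq S]

/-- `t` is the exact modulus of the approximation `F'` at `a` -/
def Mod {A : Type*} (F : A → S) (F' : A → ℕ → S) (a : A) (t : ℕ) : Prop :=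
  (∀ u, t ≤ u → F' a u = F a) ∧ (t = 0 ∨ F' a (t - 1) ≠ F a)

omit [Primcodable S] [DecidableEq S] in
lemma Mod.unique {A : Type*} {F : A → S} {F' : A → ℕ → S} {a : A} {t t' : ℕ}
    (h : Mod F F' a t) (h' : Mod F F' a t') : t = t' := by
  rcases lt_trichotomy t t' with hl | hl | hl
  · exfalso
    rcases h'.2 with h0 | h0
    · omega
    · exact h0 (h.1 _ (by omega))
  · exact hl
  · exfalso
    rcases h.2 with h0 | h0
    · omega
    · exact h0 (h'.1 _ (by omega))

lemma exists_mod {A : Type*} [Primcodable A] {F : A → S} {F' : A → ℕ → S} (h1 : Computable₂ F')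
    (h2 : ∀ a, ∀ᶠ s in atTop, F' a s = F a) : ∃ m : A → ℕ, LimF m ∧ ∀ a, Mod F F' a (m a) := by
  classical
  have heq : Computable₂ (fun x y : S => decide (x = y)) := (PrimrecRel.decide Primrec.eq).to_comp
  -- instability
  have hU : Sig {zeroO} (fun _ (q : (A × ℕ) × ℕ) => q.1.2 ≤ q.2 ∧ F' q.1.1 q.2 ≠ F' q.1.1 q.1.2) := by
    refine Sig.and (Sig.of_prim (Primrec.nat_le.comp (Primrec.snd.comp Primrec.fst) Primrec.snd)) ?_
    apply Sig.of_re
    apply ComputablePred.to_re
    refine ⟨inferInstance, ?_⟩
    have h3 : Computable (fun q : (A × ℕ) × ℕ => decide (F' q.1.1 q.2 = F' q.1.1 q.1.2)) :=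
      heq.comp (h1.comp (Computable.fst.comp Computable.fst) Computable.snd)
        (h1.comp (Computable.fst.comp Computable.fst) (Computable.snd.comp Computable.fst))
    refine (Primrec.not.to_comp.comp h3).of_eq fun q => ?_
    by_cases h : F' q.1.1 q.2 = F' q.1.1 q.1.2 <;> simp [h]
  have hU2 : LimP (fun q : A × ℕ => ∃ u, q.2 ≤ u ∧ F' q.1 u ≠ F' q.1 q.2) :=
    limP_of_sig (D := {zeroO}) rfl hU.ex
  have hE : LimP (fun q : A × ℕ => q.2 = 0 ∨ F' q.1 (q.2 - 1) ≠ F' q.1 q.2) := by
    refine LimP.or (LimP.of_primrec (Primrec.eq.comp Primrec.snd (Primrec.const 0))) ?_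
    have h3 : Computable (fun q : A × ℕ => decide (F' q.1 (q.2 - 1) = F' q.1 q.2)) :=
      heq.comp (h1.comp Computable.fst ((Primrec.nat_sub.comp Primrec.snd
        (Primrec.const 1)).to_comp)) (h1.comp Computable.fst Computable.snd)
    refine LimP.not ?_
    refine (LimP.of_eq_true (LimF.of_computable h3)).congr fun q => ?_
    simp
  obtain ⟨m, hm1, hm2⟩ := LimF.search' (p := fun q : A × ℕ =>
      (¬ ∃ u, q.2 ≤ u ∧ F' q.1 u ≠ F' q.1 q.2) ∧ (q.2 = 0 ∨ F' q.1 (q.2 - 1) ≠ F' q.1 q.2))
    (hU2.not.and hE) (by
      intro a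
      have hex : ∃ t, ∀ u, t ≤ u → F' a u = F a := by
        obtain ⟨t, ht⟩ := eventually_atTop.1 (h2 a)
        exact ⟨t, fun u hu => ht u hu⟩
      refine ⟨Nat.find hex, ?_, ?_⟩
      · rintro ⟨u, hu, hu2⟩
        apply hu2
        rw [Nat.find_spec hex u hu, Nat.find_spec hex _ le_rfl]
      · by_cases h0 : Nat.find hex = 0
        · exact Or.inl h0
        · right
          intro heq'
          refine Nat.find_min hex (m := Nat.find hex - 1) (by omega) ?_
          intro u hu
          rcases Nat.eq_or_lt_of_le hu with h5 | h5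
          · rw [← h5]
            simp only at heq'
            rw [heq', Nat.find_spec hex _ le_rfl]
          · exact Nat.find_spec hex u (by omega))
  refine ⟨m, hm1, fun a => ?_⟩
  obtain ⟨h3, h4⟩ := hm2 a
  simp only at h3 h4
  have h5 : F' a (m a) = F a := by
    obtain ⟨t, ht⟩ := eventually_atTop.1 (h2 a)
    have h6 := ht (max t (m a)) (le_max_left _ _)
    by_contra hne
    exact h3 ⟨max t (m a), le_max_right _ _, fun h7 => hne (h7 ▸ h6)⟩
  constructor
  · intro u hu
    by_contra hne
    exact h3 ⟨u, hu, fun h7 => hne (h7.trans h5)⟩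
  · rcases h4 with h4 | h4
    · exact Or.inl h4
    · right
      rwa [← h5]

/-- The escape lemma. -/
theorem escape {F : P × List (S × ℕ) → S} (hF : LimF F) :
    ∃ h : P → ℕ → List (S × ℕ), LimF (fun q : P × ℕ => h q.1 q.2) ∧
      ∀ p, h p 0 = [] ∧ (∀ k, ∃ t, h p (k + 1) = h p k ++ [(F (p, h p k), t)]) ∧
      ∀ G : List (S × ℕ) →. ℕ, Partrec G → (∀ k, (G (h p k)).Dom) →
        ∃ f : ℕ → ℕ, Computable f ∧ ∀ k, ∀ v ∈ G (h p k), v < f (encode (h p k)) := by
  classical
  obtain ⟨F', hF1, hF2⟩ := id hF
  obtain ⟨m, hm1, hm2⟩ := exists_mod hF1 hF2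
  have hstep : LimF (fun q : (P × ℕ) × List (S × ℕ) =>
      q.2 ++ [(F (q.1.1, q.2), m (q.1.1, q.2))]) := by
    have h1 : Computable (fun q : List (S × ℕ) × S × ℕ => q.1 ++ [q.2]) :=
      (Primrec.list_append.comp Primrec.fst (Primrec.list_cons.comp Primrec.snd
        (Primrec.const []))).to_comp
    have h2 : LimF (fun q : (P × ℕ) × List (S × ℕ) => (q.1.1, q.2)) :=
      LimF.of_computable (Computable.pair (Computable.fst.comp Computable.fst) Computable.snd)
    exact LimF.comp (LimF.of_computable h1)
      (LimF.pair (LimF.of_computable Computable.snd) (LimF.pair (LimF.comp hF h2)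
        (LimF.comp hm1 h2)))
  have hnil : LimF (fun _ : P => ([] : List (S × ℕ))) := LimF.of_computable (Computable.const [])
  refine ⟨fun p k => Nat.rec [] (fun _ l => l ++ [(F (p, l), m (p, l))]) k,
    LimF.iter' hnil hstep, fun p => ?_⟩
  set h : ℕ → List (S × ℕ) := fun k => Nat.rec [] (fun _ l => l ++ [(F (p, l), m (p, l))]) k
    with hh
  have h0 : h 0 = [] := rfl
  have hs : ∀ k, h (k + 1) = h k ++ [(F (p, h k), m (p, h k))] := fun k => rfl
  refine ⟨h0, fun k => ⟨_, hs k⟩, ?_⟩
  have hlen : ∀ k, (h k).length = k := by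
    intro k
    induction k with
    | zero => rfl
    | succ k ih => rw [hs]; simp [ih]
  have htake : ∀ k i, i ≤ k → (h k).take i = h i := by
    intro k
    induction k with
    | zero =>
      intro i hi
      have : i = 0 := by omega
      subst this
      rfl
    | succ k ih =>
      intro i hi
      rcases Nat.lt_or_ge k i with hi' | hi'
      · have : i = k + 1 := by omega
        subst this
        rw [List.take_of_length_le (le_of_eq (hlen (k + 1)))]
      · rw [hs, List.take_append_of_le_length (by rw [hlen]; exact hi'), ih i hi']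
  have hget : ∀ k i, i < k → (h k)[i]? = some (F (p, h i), m (p, h i)) := by
    intro k i hi
    have h1 : (h k).take (i + 1) = h (i + 1) := htake k (i + 1) hi
    have h2 : (h (i + 1))[i]? = some (F (p, h i), m (p, h i)) := by
      rw [hs, List.getElem?_append_right (by rw [hlen]), hlen]
      simp
    rw [← h2, ← h1, List.getElem?_take_of_lt (Nat.lt_succ_self i)]
  -- refutations
  let bad : List (S × ℕ) → ℕ → ℕ → S × ℕ → Bool := fun l i u x =>
    (decide (x.2 ≤ u) && !decide (F' (p, l.take i) u = x.1)) ||
      (!decide (x.2 = 0) && decide (F' (p, l.take i) (x.2 - 1) = x.1))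
  let ref : List (S × ℕ) → ℕ → Bool := fun l u =>
    bexB (fun i => Option.casesOn (l[i]?) false (bad l i u)) l.length
  have heq : Computable₂ (fun x y : S => decide (x = y)) := (PrimrecRel.decide Primrec.eq).to_comp
  have href : Computable₂ ref := by
    have hF3 : Computable (fun q : ((List (S × ℕ) × ℕ) × ℕ) × S × ℕ =>
        F' (p, q.1.1.1.take q.1.2) q.1.1.2) :=
      hF1.comp (Computable.pair (Computable.const p)
        ((Primrec.list_take.comp (Primrec.snd.comp Primrec.fst)
          (Primrec.fst.comp (Primrec.fst.comp Primrec.fst))).to_comp))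
        (Computable.snd.comp (Computable.fst.comp Computable.fst))
    have hF4 : Computable (fun q : ((List (S × ℕ) × ℕ) × ℕ) × S × ℕ =>
        F' (p, q.1.1.1.take q.1.2) (q.2.2 - 1)) :=
      hF1.comp (Computable.pair (Computable.const p)
        ((Primrec.list_take.comp (Primrec.snd.comp Primrec.fst)
          (Primrec.fst.comp (Primrec.fst.comp Primrec.fst))).to_comp))
        ((Primrec.nat_sub.comp (Primrec.snd.comp Primrec.snd) (Primrec.const 1)).to_comp)
    have hb : Computable₂ (fun (a : (List (S × ℕ) × ℕ) × ℕ) (x : S × ℕ) =>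
        bad a.1.1 a.2 a.1.2 x) := by
      have e1 : Computable (fun q : ((List (S × ℕ) × ℕ) × ℕ) × S × ℕ =>
          decide (q.2.2 ≤ q.1.1.2)) :=
        (PrimrecPred.decide (Primrec.nat_le.comp (Primrec.snd.comp Primrec.snd)
          (Primrec.snd.comp (Primrec.fst.comp Primrec.fst)))).to_comp
      have e2 : Computable (fun q : ((List (S × ℕ) × ℕ) × ℕ) × S × ℕ =>
          decide (q.2.2 = 0)) :=
        (PrimrecPred.decide (Primrec.eq.comp (Primrec.snd.comp Primrec.snd)
          (Primrec.const 0))).to_comp
      have e3 := heq.comp hF3 (Computable.fst.comp Computable.snd)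
      have e4 := heq.comp hF4 (Computable.fst.comp Computable.snd)
      exact (Primrec.or.to_comp.comp (Primrec.and.to_comp.comp e1 (Primrec.not.to_comp.comp e3))
        (Primrec.and.to_comp.comp (Primrec.not.to_comp.comp e2) e4)).to₂
    have ho : Computable (fun a : (List (S × ℕ) × ℕ) × ℕ => a.1.1[a.2]?) :=
      (Primrec.list_getElem?.comp (Primrec.fst.comp Primrec.fst) Primrec.snd).to_comp
    have h1 : Computable₂ (fun (a : List (S × ℕ) × ℕ) (i : ℕ) =>
        (Option.casesOn (a.1[i]?) false (bad a.1 i a.2) : Bool)) :=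
      (Computable.option_casesOn ho (Computable.const false) hb).to₂
    exact (computable_bexB h1 (n := fun a : List (S × ℕ) × ℕ => a.1.length)
      ((Primrec.list_length.comp Primrec.fst).to_comp)).to₂
  have href_iff : ∀ l u, ref l u = true ↔ ∃ i < l.length, ∃ x, l[i]? = some x ∧
      bad l i u x = true := by
    intro l u
    simp only [ref, bexB_iff]
    constructor
    · rintro ⟨i, hi, h1⟩
      refine ⟨i, hi, l[i], by simp [hi], ?_⟩
      have : l[i]? = some l[i] := by simp [hi]
      rw [this] at h1
      exact h1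
    · rintro ⟨i, hi, x, hx, h1⟩
      refine ⟨i, hi, ?_⟩
      rw [hx]
      exact h1
  have hbad_iff : ∀ l i u x, bad l i u x = true ↔
      (x.2 ≤ u ∧ F' (p, l.take i) u ≠ x.1) ∨ (x.2 ≠ 0 ∧ F' (p, l.take i) (x.2 - 1) = x.1) := by
    intro l i u x
    simp [bad]
  have htrue : ∀ k u, ref (h k) u = false := by
    intro k u
    by_contra hc
    rw [Bool.not_eq_false, href_iff] at hc
    obtain ⟨i, hi, x, hx, h1⟩ := hc
    rw [hlen] at hi
    rw [hget k i hi] at hx
    obtain rfl := (Option.some.inj hx).symm
    rw [hbad_iff, htake k i hi.le] at h1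
    have h2 := hm2 (p, h i)
    rcases h1 with ⟨h3, h4⟩ | ⟨h3, h4⟩
    · exact h4 (h2.1 u h3)
    · rcases h2.2 with h5 | h5
      · exact h3 h5
      · exact h5 h4
  have hfalse : ∀ l, (∀ u, ref l u = false) → ∀ i ≤ l.length, l.take i = h i := by
    intro l hl i
    induction i with
    | zero => intro _; simp [h0]
    | succ i ih =>
      intro hi
      have h1 := ih (by omega)
      have hx : l[i]? = some l[i] := by simp
      have h2 : ∀ u, ¬ bad l i u l[i] = true := by
        intro u hb
        have : ref l u = true := (href_iff l u).2 ⟨i, by omega, _, hx, hb⟩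
        rw [hl u] at this
        cases this
      have h3 : ∀ u, l[i].2 ≤ u → F' (p, h i) u = l[i].1 := by
        intro u hu
        by_contra hne
        exact h2 u ((hbad_iff _ _ _ _).2 (Or.inl ⟨hu, by rw [h1]; exact hne⟩))
      have h4 : F (p, h i) = l[i].1 := by
        obtain ⟨t, ht⟩ := eventually_atTop.1 (hF2 (p, h i))
        rw [← ht (max t l[i].2) (le_max_left _ _), h3 _ (le_max_right _ _)]
      have h5 : Mod F F' (p, h i) l[i].2 := by
        refine ⟨fun u hu => by rw [h3 u hu, h4], ?_⟩
        by_cases h6 : l[i].2 = 0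
        · exact Or.inl h6
        · right
          intro h7
          exact h2 0 ((hbad_iff _ _ _ _).2 (Or.inr ⟨h6, by rw [h1, h7, h4]⟩))
      have h6 : l[i].2 = m (p, h i) := h5.unique (hm2 (p, h i))
      rw [List.take_add_one, h1, hx, hs, h4, ← h6]
      rfl
  intro G hG hGd
  -- the merged function
  have hg1 : Partrec (fun l : List (S × ℕ) => (G l).map (fun v => v + 1)) :=
    hG.map ((Computable.succ.comp Computable.snd).to₂)
  have hg2 : Partrec (fun l : List (S × ℕ) =>
      (Nat.rfind (fun u => Part.some (ref l u))).map (fun _ => 0)) := by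
    have h1 : Partrec₂ (fun (l : List (S × ℕ)) (u : ℕ) => (Part.some (ref l u) : Part Bool)) :=
      href.partrec₂
    exact (Partrec.rfind h1).map ((Computable.const 0).to₂)
  obtain ⟨K, hK1, hK2⟩ := Partrec.merge' hg1 hg2
  have hKd : ∀ l, (K l).Dom := by
    intro l
    rw [(hK2 l).2]
    by_cases hl : ∀ u, ref l u = false
    · left
      have h1 := hfalse l hl l.length le_rfl
      rw [List.take_length] at h1
      rw [h1]
      exact hGd _
    · right
      push Not at hl
      obtain ⟨u, hu⟩ := hl
      rw [ne_eq, Bool.not_eq_false] at hu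
      exact Nat.rfind_dom.2 ⟨u, by rw [Part.mem_some_iff]; exact hu.symm, fun {m} _ => trivial⟩
  have hKc : Computable (fun l => (K l).get (hKd l)) := by
    refine hK1.of_eq fun l => ?_
    simp
  refine ⟨fun n => (K ((decode n : Option (List (S × ℕ))).getD [])).get (hKd _), ?_, ?_⟩
  · exact hKc.comp (Computable.option_getD Computable.decode (Computable.const []))
  · intro k v hv
    have hmem : (K (h k)).get (hKd _) ∈ K (h k) := Part.get_mem _
    have h1 := (hK2 (h k)).1 _ hmem
    have h2 : (K ((decode (encode (h k)) : Option (List (S × ℕ))).getD [])).get (hKd _) =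
        (K (h k)).get (hKd _) := by
      congr 1
      rw [encodek]
      rfl
    show v < (K ((decode (encode (h k)) : Option (List (S × ℕ))).getD [])).get (hKd _)
    rw [h2]
    rcases h1 with h1 | h1
    · obtain ⟨v', hv', h3⟩ := (Part.mem_map_iff _).1 h1
      rw [← h3, Part.mem_unique hv hv']
      exact Nat.lt_succ_self _
    · exfalso
      obtain ⟨w, hw, _⟩ := (Part.mem_map_iff _).1 h1
      have h4 := Nat.rfind_spec hw
      rw [Part.mem_some_iff, htrue k w] at h4
      cases h4

end

end HighD2
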