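import Mathlib
import Pool.Agent.HighD2.Escape
import Pool.Agent.JumpDeg.RecIn

/-!
Functionals given by codes, and the `Π⁰₁` classes of splitting sets.
-/

set_option autoImplicit false

namespace HighD2

open Encodable Denumerable Filter
open Nat.Partrec (Code)
open JumpDeg

/-- `v` is an output of the code `d` at `n` relative to `X`: on input (a pair consisting of) some
initial segment of `X` and `n`, the code `d` outputs `v`. -/
def Out (d : Code) (X : ℕ → Bool) (n v : ℕ) : Prop :=
  ∃ l : ℕ, v ∈ d.eval (encode (JumpDeg.pre X l, n))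

/-- The functional with code `d` computes `h` from `X`: for every `n`, the number `h n` is the one
and only output of `d` at `n` relative to `X`. -/
def Computes (d : Code) (X : ℕ → Bool) (h : ℕ → ℕ) : Prop :=
  ∀ n v, Out d X n v ↔ v = h n

/-- outputs along a string -/
def OutS (d : Code) (τ : List Bool) (n v : ℕ) : Prop :=
  ∃ l < τ.length + 1, v ∈ d.eval (encode (τ.take l, n))

lemma OutS.mono {d : Code} {σ τ : List Bool} {n v : ℕ} (h : σ <+: τ) (ho : OutS d σ n v) :
    OutS d τ n v := by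
  obtain ⟨l, hl, hv⟩ := ho
  refine ⟨l, by have := h.length_le; omega, ?_⟩
  obtain ⟨ρ, rfl⟩ := h
  rwa [List.take_append_of_le_length (by omega)]

lemma OutS.out {d : Code} {σ : List Bool} {X : ℕ → Bool} {n v t : ℕ}
    (h : σ <+: JumpDeg.pre X t) (ho : OutS d σ n v) : Out d X n v := by
  obtain ⟨l, hl, hv⟩ := ho.mono h
  rw [length_pre] at hl
  rw [take_pre, min_eq_left (by omega)] at hv
  exact ⟨l, hv⟩

section
variable {D : Set (ℕ → Bool)}

lemma sig_eval : Sig D (fun _ (q : Code × ℕ × ℕ) => q.2.2 ∈ q.1.eval q.2.1) := by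
  have h1 : PrimrecPred (fun q : (Code × ℕ × ℕ) × ℕ =>
      Code.evaln q.2 q.1.1 q.1.2.1 = some q.1.2.2) :=
    Primrec.eq.comp (Code.primrec_evaln.comp (Primrec.pair (Primrec.pair Primrec.snd
      (Primrec.fst.comp Primrec.fst)) (Primrec.fst.comp (Primrec.snd.comp Primrec.fst))))
      (Primrec.option_some.comp (Primrec.snd.comp (Primrec.snd.comp Primrec.fst)))
  refine (Sig.of_prim h1).ex.congr ?_
  rintro X _ ⟨c, n, v⟩
  exact Code.evaln_complete

lemma sig_outS : Sig D (fun _ (q : (Code × List Bool) × ℕ × ℕ) => OutS q.1.1 q.1.2 q.2.1 q.2.2) := by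
  have h1 : Sig D (fun _ (q : ((Code × List Bool) × ℕ × ℕ) × ℕ) =>
      q.1.2.2 ∈ q.1.1.1.eval (encode (q.1.1.2.take q.2, q.1.2.1))) :=
    sig_eval.comp (f := fun q : ((Code × List Bool) × ℕ × ℕ) × ℕ =>
      (q.1.1.1, encode (q.1.1.2.take q.2, q.1.2.1), q.1.2.2))
      (Primrec.pair (Primrec.fst.comp (Primrec.fst.comp Primrec.fst))
        (Primrec.pair (Primrec.encode.comp (Primrec.pair
          (Primrec.list_take.comp Primrec.snd (Primrec.snd.comp (Primrec.fst.comp Primrec.fst)))
          (Primrec.fst.comp (Primrec.snd.comp Primrec.fst))))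
          (Primrec.snd.comp (Primrec.snd.comp Primrec.fst))))
  have h2 : Sig D (fun _ (q : (((Code × List Bool) × ℕ × ℕ)) × ℕ) =>
      q.2 < q.1.1.2.length + 1 ∧ q.1.2.2 ∈ q.1.1.1.eval (encode (q.1.1.2.take q.2, q.1.2.1))) :=
    (Sig.of_prim (Primrec.nat_lt.comp Primrec.snd (Primrec.succ.comp (Primrec.list_length.comp
      (Primrec.snd.comp (Primrec.fst.comp Primrec.fst)))))).and h1
  exact h2.ex

/-- the new elements of `τ` (beyond `σ`) are on the side `s` of `ζ` -/
def NewIn (s : Bool) (σ τ ζ : List Bool) : Prop :=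
  ∀ i < τ.length, σ.length ≤ i → τ.getD i false = true → ζ.getD i false = s

lemma primrec_newIn (s : Bool) :
    PrimrecPred (fun q : List Bool × List Bool × List Bool => NewIn s q.1 q.2.1 q.2.2) := by
  have h1 : PrimrecPred (fun q : (List Bool × List Bool × List Bool) × ℕ =>
      (¬ q.1.1.length ≤ q.2) ∨ (¬ q.1.2.1.getD q.2 false = true) ∨ q.1.2.2.getD q.2 false = s) := by
    refine PrimrecPred.or (PrimrecPred.not ?_) (PrimrecPred.or (PrimrecPred.not ?_) ?_)
    · exact Primrec.nat_le.comp (Primrec.list_length.comp (Primrec.fst.comp Primrec.fst))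
        Primrec.snd
    · exact Primrec.eq.comp ((Primrec.list_getD false).comp
        (Primrec.fst.comp (Primrec.snd.comp Primrec.fst)) Primrec.snd) (Primrec.const true)
    · exact Primrec.eq.comp ((Primrec.list_getD false).comp
        (Primrec.snd.comp (Primrec.snd.comp Primrec.fst)) Primrec.snd) (Primrec.const s)
  have h2 := prim_forall_lt h1 (f := fun q : List Bool × List Bool × List Bool => q.2.1.length)
    (Primrec.list_length.comp (Primrec.fst.comp Primrec.snd))
  refine h2.of_eq ?_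
  rintro ⟨σ, τ, ζ⟩
  unfold NewIn
  simp only
  constructor
  · intro h i hi h3 h4
    rcases h i hi with h5 | h5 | h5
    · exact absurd h3 h5
    · exact absurd h4 h5
    · exact h5
  · intro h i hi
    by_cases h3 : σ.length ≤ i
    · by_cases h4 : τ.getD i false = true
      · exact Or.inr (Or.inr (h i hi h3 h4))
      · exact Or.inr (Or.inl h4)
    · exact Or.inl h3

lemma primrec_prefix : PrimrecPred (fun q : List Bool × List Bool => q.1 <+: q.2) := by
  have h1 : PrimrecPred (fun q : List Bool × List Bool => q.1 = q.2.take q.1.length) :=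
    Primrec.eq.comp Primrec.fst (Primrec.list_take.comp (Primrec.list_length.comp Primrec.fst)
      Primrec.snd)
  exact h1.of_eq fun q => List.prefix_iff_eq_take.symm

/-- some extension of `σ` whose new elements are on the side `s` of `ζ` makes the functional `e`
output a value at `n`, everything being bounded by the length of `ζ` -/
def Half (s : Bool) (σ : List Bool) (e : Code) (n : ℕ) (ζ : List Bool) : Prop :=
  ∃ p : List Bool × ℕ, (p.1.length ≤ ζ.length ∧ p.2 ≤ ζ.length) ∧ OutS e p.1 n p.2 ∧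
    σ <+: p.1 ∧ NewIn s σ p.1 ζ

lemma sig_half (s : Bool) : Sig D (fun _ (q : (List Bool × Code × ℕ) × List Bool) =>
    Half s q.1.1 q.1.2.1 q.1.2.2 q.2) := by
  have h1 : Sig D (fun _ (q : ((List Bool × Code × ℕ) × List Bool) × List Bool × ℕ) =>
      (q.2.1.length ≤ q.1.2.length ∧ q.2.2 ≤ q.1.2.length) ∧ OutS q.1.1.2.1 q.2.1 q.1.1.2.2 q.2.2 ∧
        q.1.1.1 <+: q.2.1 ∧ NewIn s q.1.1.1 q.2.1 q.1.2) := by
    refine Sig.and (Sig.of_prim ?_) (Sig.and ?_ (Sig.of_prim ?_))
    · exact (Primrec.nat_le.comp (Primrec.list_length.comp (Primrec.fst.comp Primrec.snd))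
        (Primrec.list_length.comp (Primrec.snd.comp Primrec.fst))).and
        (Primrec.nat_le.comp (Primrec.snd.comp Primrec.snd)
        (Primrec.list_length.comp (Primrec.snd.comp Primrec.fst)))
    · exact sig_outS.comp (f := fun q : ((List Bool × Code × ℕ) × List Bool) × List Bool × ℕ =>
        ((q.1.1.2.1, q.2.1), (q.1.1.2.2, q.2.2)))
        (Primrec.pair (Primrec.pair
          (Primrec.fst.comp (Primrec.snd.comp (Primrec.fst.comp Primrec.fst)))
          (Primrec.fst.comp Primrec.snd))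
          (Primrec.pair (Primrec.snd.comp (Primrec.snd.comp (Primrec.fst.comp Primrec.fst)))
            (Primrec.snd.comp Primrec.snd)))
    · exact (primrec_prefix.comp (Primrec.pair (Primrec.fst.comp (Primrec.fst.comp Primrec.fst))
        (Primrec.fst.comp Primrec.snd))).and
        ((primrec_newIn s).comp (Primrec.pair (Primrec.fst.comp (Primrec.fst.comp Primrec.fst))
        (Primrec.pair (Primrec.fst.comp Primrec.snd) (Primrec.snd.comp Primrec.fst))))
  exact h1.ex

lemma Half.mono {s : Bool} {σ : List Bool} {e : Code} {n : ℕ} {ζ ξ : List Bool} (h : ζ <+: ξ)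
    (hh : Half s σ e n ζ) : Half s σ e n ξ := by
  obtain ⟨p, ⟨h1, h2⟩, h3, h4, h5⟩ := hh
  refine ⟨p, ⟨h1.trans h.length_le, h2.trans h.length_le⟩, h3, h4, ?_⟩
  intro i hi hi2 hi3
  rw [← h5 i hi hi2 hi3]
  obtain ⟨ρ, rfl⟩ := h
  rw [List.getD_append _ _ _ _ (by omega)]

/-- divergence -/
lemma not_out_of_not_half {s : Bool} {σ : List Bool} {e : Code} {n : ℕ} {Z X : ℕ → Bool}
    (h : ∀ t, ¬ Half s σ e n (JumpDeg.pre Z t)) (hX : σ <+: JumpDeg.pre X σ.length)
    (hXZ : ∀ i, σ.length ≤ i → X i = true → Z i = s) (v : ℕ) : ¬ Out e X n v := by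
  rintro ⟨l, hl⟩
  have hlt : ∀ i, i < max l σ.length → i < max (max l σ.length) v := fun i hi => by omega
  refine h (max (max l σ.length) v) ⟨(JumpDeg.pre X (max l σ.length), v),
    ⟨by rw [length_pre, length_pre]; exact le_max_left _ _,
      by rw [length_pre]; exact le_max_right _ _⟩,
    ⟨l, by rw [length_pre]; omega, ?_⟩, ?_, ?_⟩
  · simp only
    rw [take_pre, min_eq_left (le_max_left _ _)]
    exact hl
  · exact hX.trans (pre_prefix_pre X (le_max_right _ _))
  · intro i hi hi2 hi3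
    simp only [length_pre] at hi
    have h1 : (JumpDeg.pre X (max l σ.length)).getD i false = X i := by
      rw [List.getD, getElem?_pre_of_lt X hi]
      rfl
    have h2 : (JumpDeg.pre Z (max (max l σ.length) v)).getD i false = Z i := by
      rw [List.getD, getElem?_pre_of_lt Z (hlt i hi)]
      rfl
    simp only at hi3
    rw [h1] at hi3
    rw [h2]
    exact hXZ i hi2 hi3

end

/-- positions `(σ, κ)` -/
abbrev Pos := List Bool × List Bool

/-- questions `((σ, κ), e, α, n)` -/
abbrev Q := Pos × Code × Code × ℕ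

/-- `ζ` is hit -/
def Hit (q : Q) (ζ : List Bool) : Prop :=
  Half true q.1.1 q.2.1 q.2.2.2 ζ ∨ Half false q.1.2 q.2.2.1 q.2.2.2 ζ

lemma Hit.mono {q : Q} {ζ ξ : List Bool} (h : ζ <+: ξ) (hh : Hit q ζ) : Hit q ξ :=
  hh.imp (Half.mono h) (Half.mono h)

lemma sig_hit {D : Set (ℕ → Bool)} : Sig D (fun _ (p : Q × List Bool) => Hit p.1 p.2) := by
  refine Sig.or ?_ ?_
  · exact (sig_half true).comp (f := fun p : Q × List Bool =>
      ((p.1.1.1, p.1.2.1, p.1.2.2.2), p.2)) (Primrec.pair (Primrec.pair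
        (Primrec.fst.comp (Primrec.fst.comp Primrec.fst))
        (Primrec.pair (Primrec.fst.comp (Primrec.snd.comp Primrec.fst))
          (Primrec.snd.comp (Primrec.snd.comp (Primrec.snd.comp Primrec.fst))))) Primrec.snd)
  · exact (sig_half false).comp (f := fun p : Q × List Bool =>
      ((p.1.1.2, p.1.2.2.1, p.1.2.2.2), p.2)) (Primrec.pair (Primrec.pair
        (Primrec.snd.comp (Primrec.fst.comp Primrec.fst))
        (Primrec.pair (Primrec.fst.comp (Primrec.snd.comp (Primrec.snd.comp Primrec.fst)))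
          (Primrec.snd.comp (Primrec.snd.comp (Primrec.snd.comp Primrec.fst))))) Primrec.snd)

/-- all strings of length `b` are hit -/
def Qb (p : Q × ℕ) : Prop := ∀ z < 2 ^ p.2, Hit p.1 (bitStr z p.2)

lemma sig_qb {D : Set (ℕ → Bool)} : Sig D (fun _ (p : Q × ℕ) => Qb p) := by
  have h : Sig D (fun _ (p : (Q × ℕ) × ℕ) => Hit p.1.1 (bitStr p.2 p.1.2)) :=
    sig_hit.comp (f := fun p : (Q × ℕ) × ℕ => (p.1.1, bitStr p.2 p.1.2))
      (Primrec.pair (Primrec.fst.comp Primrec.fst)
        (primrec_bitStr.comp Primrec.snd (Primrec.snd.comp Primrec.fst)))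
  exact h.ball (f := fun p : Q × ℕ => 2 ^ p.2) (primrec_pow2.comp Primrec.snd)

lemma Qb.hit {q : Q} {b : ℕ} (h : Qb (q, b)) (Z : ℕ → Bool) : Hit q (JumpDeg.pre Z b) := by
  obtain ⟨z, hz, hzz⟩ := exists_bitStr Z b
  rw [← hzz]
  exact h z hz

lemma exists_not_hit {q : Q} (h : ¬ ∃ b, Qb (q, b)) :
    ∃ Z : ℕ → Bool, ∀ t, ¬ Hit q (JumpDeg.pre Z t) := by
  by_contra hc
  push Not at hc
  obtain ⟨b, hb⟩ := compactness (P := Hit q) (fun σ τ h => Hit.mono h) hc
  exact h ⟨b, fun z _ => hb _⟩

/-- one low set contains splitting sets for all negatively answered questions -/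
theorem exists_low_splits : ∃ Y : ℕ → Bool, Low Y ∧ ∀ q : Q, (¬ ∃ b, Qb (q, b)) →
    ∀ t, ¬ Hit q (JumpDeg.pre (col Y (encode q)) t) := by
  have hU : Sig {zeroO} (fun _ (p : ℕ × List Bool) => ∃ q : Q, encode q = p.1 ∧ Hit q p.2) := by
    have h1 : Sig {zeroO} (fun _ (p : (ℕ × List Bool) × Q) => encode p.2 = p.1.1 ∧ Hit p.2 p.1.2) :=
      (Sig.of_prim (Primrec.eq.comp (Primrec.encode.comp Primrec.snd)
        (Primrec.fst.comp Primrec.fst))).and
        (sig_hit.comp (f := fun p : (ℕ × List Bool) × Q => (p.2, p.1.2))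
          (Primrec.pair Primrec.snd (Primrec.snd.comp Primrec.fst)))
    exact h1.ex
  obtain ⟨Y, hY1, hY2⟩ := low_uniform hU
  refine ⟨Y, hY1, fun q hq t ht => ?_⟩
  obtain ⟨Z, hZ⟩ := exists_not_hit hq
  refine hY2 (encode q) ⟨Z, ?_⟩ t ⟨q, rfl, ht⟩
  rintro t ⟨q', hq', ht'⟩
  obtain rfl := encode_injective hq'
  exact hZ t ht'

/-! ### computing functions -/

lemma Computes.sig {d : Code} {X : ℕ → Bool} {h : ℕ → ℕ} (hc : Computes d X h) :
    Sig {X} (fun _ (p : ℕ × ℕ) => h p.1 = p.2) := by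
  have h1 : Sig {X} (fun _ (q : (ℕ × ℕ) × List Bool) =>
      q.1.2 ∈ d.eval (encode (q.2, q.1.1))) :=
    sig_eval.comp (f := fun q : (ℕ × ℕ) × List Bool => (d, encode (q.2, q.1.1), q.1.2))
      (Primrec.pair (Primrec.const d) (Primrec.pair (Primrec.encode.comp (Primrec.pair Primrec.snd
        (Primrec.fst.comp Primrec.fst))) (Primrec.snd.comp Primrec.fst)))
  refine (sig_pre (Red.refl X) h1).congr ?_
  rintro _ rfl ⟨n, v⟩
  exact eq_comm.trans (hc n v).symm

/-- every function computable relative to `B` is computed by some code -/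
theorem exists_computes {B : ℕ → Bool} {h : ℕ → ℕ}
    (hs : Sig {B} (fun _ (p : ℕ × ℕ) => h p.1 = p.2)) : ∃ d : Code, Computes d B h := by
  classical
  obtain ⟨R, h1, h2, h3⟩ := hs
  have h3' := h3 B rfl
  have h4 : Primrec₂ (fun (q : List Bool × ℕ) (v : ℕ) => decide (R ((q.2, v), q.1))) :=
    (PrimrecPred.decide (h1.comp (Primrec.pair (Primrec.pair (Primrec.snd.comp Primrec.fst)
      Primrec.snd) (Primrec.fst.comp Primrec.fst)))).to₂
  have h5 : Partrec₂ (fun (q : List Bool × ℕ) (v : ℕ) =>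
      (Part.some (decide (R ((q.2, v), q.1))) : Part Bool)) := h4.to_comp.partrec₂
  have h6 : Partrec (fun q : List Bool × ℕ => Nat.rfind
      (fun v => Part.some (decide (R ((q.2, v), q.1))))) := Partrec.rfind h5
  unfold Partrec at h6
  obtain ⟨d, hd⟩ := Code.exists_code.1 h6
  have hd' : ∀ (σ : List Bool) (n v : ℕ), v ∈ d.eval (encode (σ, n)) ↔
      v ∈ Nat.rfind (fun v => Part.some (decide (R ((n, v), σ)))) := by
    intro σ n v
    rw [hd]
    simp only [encodek, Part.coe_some, Part.bind_some]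
    simp
  refine ⟨d, fun n v => ?_⟩
  have sound : ∀ v, Out d B n v → v = h n := by
    rintro v ⟨l, hl⟩
    rw [hd'] at hl
    have h7 := Nat.rfind_spec hl
    rw [Part.mem_some_iff] at h7
    exact ((h3' (n, v)).2 ⟨l, by simpa using h7.symm⟩).symm
  constructor
  · exact sound v
  · rintro rfl
    obtain ⟨t, ht⟩ := (h3' (n, h n)).1 rfl
    have hdom : (Nat.rfind (fun v => Part.some (decide (R ((n, v), JumpDeg.pre B t))))).Dom :=
      Nat.rfind_dom.2 ⟨h n, by rw [Part.mem_some_iff]; simpa using ht, fun {m} _ => trivial⟩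
    have hmem := Part.get_mem hdom
    have h8 : Out d B n ((Nat.rfind (fun v =>
        Part.some (decide (R ((n, v), JumpDeg.pre B t))))).get hdom) := ⟨t, by rw [hd']; exact hmem⟩
    rw [← sound _ h8]
    exact h8

end HighD2
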