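import Mathlib
import Pool.Agent.HighD2.Func

/-!
One step of the construction, as a limit computable function.
-/

set_option autoImplicit false

namespace HighD2

open Encodable Denumerable Filter
open Nat.Partrec (Code)
open JumpDeg

section
variable {α β γ σ : Type*} [Primcodable α] [Primcodable β] [Primcodable γ] [Primcodable σ]

lemma LimP.eq {f g : α → β} (hf : LimF f) (hg : LimF g) : LimP (fun a => f a = g a) := by
  classical
  have h : Computable (fun q : β × β => decide (q.1 = q.2)) :=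
    (PrimrecPred.decide (Primrec.eq.comp Primrec.fst Primrec.snd)).to_comp
  refine (LimP.of_eq_true (LimF.comp (LimF.of_computable h) (LimF.pair hf hg))).congr ?_
  intro a
  simp

/-- search for a witness in any type -/
lemma LimF.searchT [Inhabited β] {y : α → Prop} (hy : LimP y) {p : α × β → Prop} (hp : LimP p)
    (h : ∀ a, y a → ∃ w, p (a, w)) :
    ∃ f : α → β, LimF f ∧ ∀ a, y a → p (a, f a) := by
  have hd : Primrec (fun q : α × ℕ => ((decode q.2 : Option β).getD default)) :=
    Primrec.option_getD.comp (Primrec.decode.comp Primrec.snd) (Primrec.const default)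
  obtain ⟨f, hf1, hf2⟩ := LimF.search hy
    (p := fun q : α × ℕ => p (q.1, ((decode q.2 : Option β).getD default)))
    (LimP.comp hp (f := fun q : α × ℕ => (q.1, ((decode q.2 : Option β).getD default)))
      (LimF.of_computable (Primrec.pair Primrec.fst hd).to_comp)) (by
      intro a ha
      obtain ⟨w, hw⟩ := h a ha
      exact ⟨encode w, by simpa using hw⟩)
  refine ⟨fun a => (decode (f a) : Option β).getD default, ?_, fun a ha => hf2 a ha⟩
  exact LimF.comp (f := fun n : ℕ => (decode n : Option β).getD default)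
    (LimF.of_computable (Primrec.option_getD.comp Primrec.decode (Primrec.const default)).to_comp)
    hf1

end

/-- states: position, current functional, pending question, satisfied codes, counter -/
abbrev State := Pos × Code × Option Q × List Code × ℕ

/-- the last state of a history -/
def st (h : List (State × ℕ)) : State :=
  ((h[h.length - 1]?).map Prod.fst).getD (([], []), Code.zero, none, [], 0)

/-- extension by `false` up to length `v` -/
def padTo (σ : List Bool) (v : ℕ) : List Bool :=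
  σ ++ (List.range (v - σ.length)).map (fun _ => false)

/-- extension by the new element `y` -/
def ext1 (σ : List Bool) (y : ℕ) : List Bool := padTo σ y ++ [true]

lemma primrec_padTo : Primrec₂ padTo := by
  have h : Primrec (fun p : List Bool × ℕ => (List.range (p.2 - p.1.length)).map
      (fun _ => false)) :=
    Primrec.list_map (Primrec.list_range.comp (Primrec.nat_sub.comp Primrec.snd
      (Primrec.list_length.comp Primrec.fst))) (Primrec.const false).to₂
  exact (Primrec.list_append.comp Primrec.fst h).to₂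

lemma primrec_ext1 : Primrec₂ ext1 :=
  (Primrec.list_append.comp (primrec_padTo.comp Primrec.fst Primrec.snd)
    (Primrec.const [true])).to₂

lemma primrec_st : Primrec st := by
  have h1 : Primrec (fun h : List (State × ℕ) => h[h.length - 1]?) :=
    Primrec.list_getElem?.comp Primrec.id (Primrec.nat_sub.comp Primrec.list_length
      (Primrec.const 1))
  exact Primrec.option_getD.comp (Primrec.option_map h1 (Primrec.fst.comp Primrec.snd).to₂)
    (Primrec.const _)

/-- the requirement with number `m` -/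
def req (m : ℕ) : Code × Code :=
  (ofNat Code m.unpair.1.unpair.1, ofNat Code m.unpair.1.unpair.2)

lemma primrec_req : Primrec req :=
  Primrec.pair ((Primrec.ofNat Code).comp (Primrec.fst.comp (Primrec.unpair.comp
    (Primrec.fst.comp Primrec.unpair)))) ((Primrec.ofNat Code).comp (Primrec.snd.comp
    (Primrec.unpair.comp (Primrec.fst.comp Primrec.unpair))))

/-- both coordinates get a new element -/
def Grow (A : ℕ → Bool) (p p' : Pos) : Prop :=
  ∃ y₁ y₂, p.1.length ≤ y₁ ∧ A y₁ = true ∧ p.2.length ≤ y₂ ∧ A y₂ = false ∧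
    p' = (ext1 p.1 y₁, ext1 p.2 y₂)

/-- legal extension of positions -/
def Ext (A : ℕ → Bool) (p p' : Pos) : Prop :=
  (p.1 <+: p'.1 ∧ p.2 <+: p'.2) ∧ NewIn true p.1 p'.1 (JumpDeg.pre A p'.1.length) ∧
    NewIn false p.2 p'.2 (JumpDeg.pre A p'.2.length)

/-- the question whether a small value can be forced -/
def Yes (r : (Pos × Code × Code) × Code × ℕ) : Prop :=
  ∃ w : ℕ × ℕ × ℕ, r.2.2 ≤ w.1 ∧ Qb ((r.1.1, r.1.2.1, r.1.2.2, w.1), w.2.1) ∧
    w.2.2 ∈ r.2.1.eval w.1 ∧ w.2.1 < w.2.2

/-- a small value is forced -/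
def Prog (r : (Pos × Code × Code) × Code × ℕ) (p' : Pos) (w : ℕ × ℕ × ℕ) : Prop :=
  r.2.2 ≤ w.1 ∧ w.2.2 ∈ r.2.1.eval w.1 ∧ w.2.1 < w.2.2 ∧
    (OutS r.1.2.1 p'.1 w.1 w.2.1 ∨ OutS r.1.2.2 p'.2 w.1 w.2.1)

/-- specification of one step -/
def StepSpec (A Y : ℕ → Bool) (a' : Code) (k n : ℕ) (s s' : State) : Prop :=
  s'.2.1 = a' ∧
  ((∃ q y, s.2.2.1 = some q ∧ q.2.2.1 = s.2.1 ∧ s.1.2.length ≤ y ∧ A y = false ∧
      col Y (encode q) y = false ∧ s'.1 = (s.1.1, ext1 s.1.2 y) ∧ s'.2.2 = s.2.2) ∨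
   (∃ q v, s.2.2.1 = some q ∧ q.2.2.1 = s.2.1 ∧ (∀ y, v ≤ y → col Y (encode q) y = true) ∧
      Grow A (padTo s.1.1 v, padTo s.1.2 v) s'.1 ∧
      s'.2.2 = (none, q.2.1 :: s.2.2.2.1, s.2.2.2.2)) ∨
   (∃ q, s.2.2.1 = some q ∧ q.2.2.1 ≠ s.2.1 ∧ Grow A s.1 s'.1 ∧
      s'.2.2 = (none, s.2.2.2.1, s.2.2.2.2)) ∨
   (s.2.2.1 = none ∧ (req s.2.2.2.2).1 ∉ s.2.2.2.1 ∧
      (¬ ∃ b, Qb ((s.1, (req s.2.2.2.2).1, s.2.1, n), b)) ∧ s'.1 = s.1 ∧
      s'.2.2 = (some (s.1, (req s.2.2.2.2).1, s.2.1, n), s.2.2.2.1, s.2.2.2.2 + 1)) ∨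
   (s.2.2.1 = none ∧ ((req s.2.2.2.2).1 ∉ s.2.2.2.1 →
      ∃ b, Qb ((s.1, (req s.2.2.2.2).1, s.2.1, n), b)) ∧
      s'.2.2 = (none, s.2.2.2.1, s.2.2.2.2 + 1) ∧
      ∃ p', Ext A s.1 p' ∧ Grow A p' s'.1 ∧ ((req s.2.2.2.2).1 ∉ s.2.2.2.1 →
        Yes ((s.1, (req s.2.2.2.2).1, s.2.1), (req s.2.2.2.2).2, k) →
        ∃ w, Prog ((s.1, (req s.2.2.2.2).1, s.2.1), (req s.2.2.2.2).2, k) p' w)))

lemma getD_pre (A : ℕ → Bool) {i a : ℕ} (h : i < a) : (JumpDeg.pre A a).getD i false = A i := by
  rw [List.getD, getElem?_pre_of_lt A h]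
  rfl

lemma getD_pre_eq (A : ℕ → Bool) {i a b : ℕ} (h : i < a) (h' : i < b) :
    (JumpDeg.pre A a).getD i false = (JumpDeg.pre A b).getD i false := by
  rw [getD_pre A h, getD_pre A h']

lemma newIn_self (s : Bool) (σ ζ : List Bool) : NewIn s σ σ ζ := by
  intro i hi hi2
  omega

section
variable {A Y : ℕ → Bool}

lemma exists_grow (hA : LimF A) (hn1 : ∀ n, ∃ y, n ≤ y ∧ A y = true)
    (hn2 : ∀ n, ∃ y, n ≤ y ∧ A y = false) : ∃ G : Pos → Pos, LimF G ∧ ∀ p, Grow A p (G p) := by
  have hAc : LimF (fun q : ℕ × ℕ => A q.2) :=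
    LimF.comp hA (LimF.of_computable Computable.snd)
  have hle : LimP (fun q : ℕ × ℕ => q.1 ≤ q.2) :=
    LimP.of_primrec (Primrec.nat_le.comp Primrec.fst Primrec.snd)
  obtain ⟨fA, hfA1, hfA2⟩ := LimF.search' (p := fun q : ℕ × ℕ => q.1 ≤ q.2 ∧ A q.2 = true)
    (hle.and (LimP.eq hAc (LimF.of_computable (Computable.const true)))) hn1
  obtain ⟨fB, hfB1, hfB2⟩ := LimF.search' (p := fun q : ℕ × ℕ => q.1 ≤ q.2 ∧ A q.2 = false)
    (hle.and (LimP.eq hAc (LimF.of_computable (Computable.const false)))) hn2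
  refine ⟨fun p => (ext1 p.1 (fA p.1.length), ext1 p.2 (fB p.2.length)), ?_, fun p => ?_⟩
  · have hE : LimF (fun q : List Bool × ℕ => ext1 q.1 q.2) :=
      LimF.of_computable primrec_ext1.to_comp
    have hL : LimF (fun σ : List Bool => σ.length) :=
      LimF.of_computable Primrec.list_length.to_comp
    have h1 : LimF (fun p : Pos => p.1) := LimF.of_computable Computable.fst
    have h2 : LimF (fun p : Pos => p.2) := LimF.of_computable Computable.snd
    exact LimF.pair (LimF.comp hE (LimF.pair h1 (LimF.comp hfA1 (LimF.comp hL h1))))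
      (LimF.comp hE (LimF.pair h2 (LimF.comp hfB1 (LimF.comp hL h2))))
  · exact ⟨_, _, (hfA2 _).1, (hfA2 _).2, (hfB2 _).1, (hfB2 _).2, rfl⟩

/-- the search during a pending phase -/
def PSrch (A Y : ℕ → Bool) (l : ℕ) (q : Q) (w : ℕ) : Prop :=
  (w.unpair.1 = 0 ∧ l ≤ w.unpair.2 ∧ A w.unpair.2 = false ∧
    col Y (encode q) w.unpair.2 = false) ∨
  (w.unpair.1 ≠ 0 ∧ ∀ y, w.unpair.2 ≤ y → col Y (encode q) y = true)

lemma exists_psrch (hA : LimF A) (hY : Low Y)
    (hp : ∀ (q : Q) (l : ℕ), (∃ y, l ≤ y ∧ A y = false ∧ col Y (encode q) y = false) ∨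
      ∃ v, ∀ y, v ≤ y → col Y (encode q) y = true) :
    ∃ W : ℕ × Q → ℕ, LimF W ∧ ∀ l q, PSrch A Y l q (W (l, q)) := by
  have hu2 : Primrec (fun x : (ℕ × Q) × ℕ => x.2.unpair.2) :=
    Primrec.snd.comp (Primrec.unpair.comp Primrec.snd)
  have hu1 : Primrec (fun x : (ℕ × Q) × ℕ => x.2.unpair.1) :=
    Primrec.fst.comp (Primrec.unpair.comp Primrec.snd)
  have hYF : LimF Y := LimF.of_low hY
  have hq : Primrec (fun x : (ℕ × Q) × ℕ => encode x.1.2) :=
    Primrec.encode.comp (Primrec.snd.comp Primrec.fst)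
  have h0 : LimP (fun x : (ℕ × Q) × ℕ => x.2.unpair.1 = 0) :=
    LimP.of_primrec (Primrec.eq.comp hu1 (Primrec.const 0))
  have h1 : LimP (fun x : (ℕ × Q) × ℕ => x.1.1 ≤ x.2.unpair.2) :=
    LimP.of_primrec (Primrec.nat_le.comp (Primrec.fst.comp Primrec.fst) hu2)
  have h2 : LimP (fun x : (ℕ × Q) × ℕ => A x.2.unpair.2 = false) :=
    LimP.eq (LimF.comp hA (LimF.of_computable hu2.to_comp))
      (LimF.of_computable (Computable.const false))
  have h3 : LimP (fun x : (ℕ × Q) × ℕ => col Y (encode x.1.2) x.2.unpair.2 = false) :=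
    LimP.eq (LimF.comp (f := Y) (g := fun x : (ℕ × Q) × ℕ =>
      Nat.pair (encode x.1.2) x.2.unpair.2) hYF
      (LimF.of_computable (Primrec₂.natPair.comp hq hu2).to_comp))
      (LimF.of_computable (Computable.const false))
  have h4 : LimP (fun x : (ℕ × Q) × ℕ => ∀ y, x.2.unpair.2 ≤ y →
      col Y (encode x.1.2) y = true) := by
    have h5 : Sig {Y} (fun Y (x : ((ℕ × Q) × ℕ) × ℕ) => x.1.2.unpair.2 ≤ x.2 ∧
        Y (Nat.pair (encode x.1.1.2) x.2) = false) :=
      (Sig.of_prim (Primrec.nat_le.comp (hu2.comp Primrec.fst) Primrec.snd)).and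
        (Sig.oracle (Primrec₂.natPair.comp (hq.comp Primrec.fst) Primrec.snd)
          (Primrec.const false))
    refine (hY.limP h5.ex).not.congr ?_
    intro x
    simp only [not_exists, not_and, Bool.not_eq_false, col]
  obtain ⟨W, hW1, hW2⟩ := LimF.search' (p := fun x : (ℕ × Q) × ℕ => PSrch A Y x.1.1 x.1.2 x.2)
    ((h0.and (h1.and (h2.and h3))).or (h0.not.and h4)) (by
      rintro ⟨l, q⟩
      rcases hp q l with ⟨y, hy⟩ | ⟨v, hv⟩
      · refine ⟨Nat.pair 0 y, Or.inl ?_⟩
        simpa using hy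
      · refine ⟨Nat.pair 1 v, Or.inr ?_⟩
        simpa using hv)
  exact ⟨W, hW1, fun l q => hW2 (l, q)⟩

lemma exists_ans (hA : LimF A) :
    ∃ T : (Pos × Code × Code) × Code × ℕ → Pos, LimF T ∧
      ∀ r, Ext A r.1.1 (T r) ∧ (Yes r → ∃ w, Prog r (T r) w) := by
  classical
  have hYes : LimP Yes := by
    have h1 : Sig {zeroO} (fun _ (x : ((Pos × Code × Code) × Code × ℕ) × ℕ × ℕ × ℕ) =>
        x.1.2.2 ≤ x.2.1 ∧ Qb ((x.1.1.1, x.1.1.2.1, x.1.1.2.2, x.2.1), x.2.2.1) ∧
          x.2.2.2 ∈ x.1.2.1.eval x.2.1 ∧ x.2.2.1 < x.2.2.2) := by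
      refine Sig.and (Sig.of_prim ?_) (Sig.and ?_ (Sig.and ?_ (Sig.of_prim ?_)))
      · exact Primrec.nat_le.comp (Primrec.snd.comp (Primrec.snd.comp Primrec.fst))
          (Primrec.fst.comp Primrec.snd)
      · exact sig_qb.comp (f := fun x : ((Pos × Code × Code) × Code × ℕ) × ℕ × ℕ × ℕ =>
          ((x.1.1.1, x.1.1.2.1, x.1.1.2.2, x.2.1), x.2.2.1))
          (Primrec.pair (Primrec.pair (Primrec.fst.comp (Primrec.fst.comp Primrec.fst))
            (Primrec.pair (Primrec.fst.comp (Primrec.snd.comp (Primrec.fst.comp Primrec.fst)))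
              (Primrec.pair (Primrec.snd.comp (Primrec.snd.comp (Primrec.fst.comp Primrec.fst)))
                (Primrec.fst.comp Primrec.snd))))
            (Primrec.fst.comp (Primrec.snd.comp Primrec.snd)))
      · exact sig_eval.comp (f := fun x : ((Pos × Code × Code) × Code × ℕ) × ℕ × ℕ × ℕ =>
          (x.1.2.1, x.2.1, x.2.2.2))
          (Primrec.pair (Primrec.fst.comp (Primrec.snd.comp Primrec.fst))
            (Primrec.pair (Primrec.fst.comp Primrec.snd)
              (Primrec.snd.comp (Primrec.snd.comp Primrec.snd))))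
      · exact Primrec.nat_lt.comp (Primrec.fst.comp (Primrec.snd.comp Primrec.snd))
          (Primrec.snd.comp (Primrec.snd.comp Primrec.snd))
    exact limP_of_sig (D := {zeroO}) rfl h1.ex
  -- the predicate to be searched
  have hExt : LimP (fun x : ((Pos × Code × Code) × Code × ℕ) × Pos × ℕ × ℕ × ℕ =>
      Ext A x.1.1.1 x.2.1) := by
    have hl1 : Primrec (fun x : ((Pos × Code × Code) × Code × ℕ) × Pos × ℕ × ℕ × ℕ =>
        x.2.1.1) := Primrec.fst.comp (Primrec.fst.comp Primrec.snd)
    have hl2 : Primrec (fun x : ((Pos × Code × Code) × Code × ℕ) × Pos × ℕ × ℕ × ℕ =>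
        x.2.1.2) := Primrec.snd.comp (Primrec.fst.comp Primrec.snd)
    have hr1 : Primrec (fun x : ((Pos × Code × Code) × Code × ℕ) × Pos × ℕ × ℕ × ℕ =>
        x.1.1.1.1) := Primrec.fst.comp (Primrec.fst.comp (Primrec.fst.comp Primrec.fst))
    have hr2 : Primrec (fun x : ((Pos × Code × Code) × Code × ℕ) × Pos × ℕ × ℕ × ℕ =>
        x.1.1.1.2) := Primrec.snd.comp (Primrec.fst.comp (Primrec.fst.comp Primrec.fst))
    have hp : LimF (fun σ : List Bool => JumpDeg.pre A σ.length) :=
      LimF.comp (LimF.pre hA) (LimF.of_computable Primrec.list_length.to_comp)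
    refine LimP.and (LimP.of_primrec ((primrec_prefix.comp (Primrec.pair hr1 hl1)).and
      (primrec_prefix.comp (Primrec.pair hr2 hl2)))) (LimP.and ?_ ?_)
    · exact LimP.comp (LimP.of_primrec (primrec_newIn true))
        (LimF.pair (LimF.of_computable hr1.to_comp) (LimF.pair (LimF.of_computable hl1.to_comp)
          (LimF.comp hp (LimF.of_computable hl1.to_comp))))
    · exact LimP.comp (LimP.of_primrec (primrec_newIn false))
        (LimF.pair (LimF.of_computable hr2.to_comp) (LimF.pair (LimF.of_computable hl2.to_comp)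
          (LimF.comp hp (LimF.of_computable hl2.to_comp))))
  have hProg : LimP (fun x : ((Pos × Code × Code) × Code × ℕ) × Pos × ℕ × ℕ × ℕ =>
      Prog x.1 x.2.1 x.2.2) := by
    have h1 : Sig {zeroO} (fun _ (x : ((Pos × Code × Code) × Code × ℕ) × Pos × ℕ × ℕ × ℕ) =>
        Prog x.1 x.2.1 x.2.2) := by
      refine Sig.and (Sig.of_prim ?_) (Sig.and ?_ (Sig.and (Sig.of_prim ?_) (Sig.or ?_ ?_)))
      · exact Primrec.nat_le.comp (Primrec.snd.comp (Primrec.snd.comp Primrec.fst))
          (Primrec.fst.comp (Primrec.snd.comp Primrec.snd))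
      · exact sig_eval.comp (f := fun x : ((Pos × Code × Code) × Code × ℕ) × Pos × ℕ × ℕ × ℕ =>
          (x.1.2.1, x.2.2.1, x.2.2.2.2))
          (Primrec.pair (Primrec.fst.comp (Primrec.snd.comp Primrec.fst))
            (Primrec.pair (Primrec.fst.comp (Primrec.snd.comp Primrec.snd))
              (Primrec.snd.comp (Primrec.snd.comp (Primrec.snd.comp Primrec.snd)))))
      · exact Primrec.nat_lt.comp (Primrec.fst.comp (Primrec.snd.comp (Primrec.snd.comp
          Primrec.snd))) (Primrec.snd.comp (Primrec.snd.comp (Primrec.snd.comp Primrec.snd)))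
      · exact sig_outS.comp (f := fun x : ((Pos × Code × Code) × Code × ℕ) × Pos × ℕ × ℕ × ℕ =>
          ((x.1.1.2.1, x.2.1.1), (x.2.2.1, x.2.2.2.1)))
          (Primrec.pair (Primrec.pair (Primrec.fst.comp (Primrec.snd.comp (Primrec.fst.comp
            Primrec.fst))) (Primrec.fst.comp (Primrec.fst.comp Primrec.snd)))
            (Primrec.pair (Primrec.fst.comp (Primrec.snd.comp Primrec.snd))
              (Primrec.fst.comp (Primrec.snd.comp (Primrec.snd.comp Primrec.snd)))))
      · exact sig_outS.comp (f := fun x : ((Pos × Code × Code) × Code × ℕ) × Pos × ℕ × ℕ × ℕ =>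
          ((x.1.1.2.2, x.2.1.2), (x.2.2.1, x.2.2.2.1)))
          (Primrec.pair (Primrec.pair (Primrec.snd.comp (Primrec.snd.comp (Primrec.fst.comp
            Primrec.fst))) (Primrec.snd.comp (Primrec.fst.comp Primrec.snd)))
            (Primrec.pair (Primrec.fst.comp (Primrec.snd.comp Primrec.snd))
              (Primrec.fst.comp (Primrec.snd.comp (Primrec.snd.comp Primrec.snd)))))
    exact limP_of_sig (D := {zeroO}) rfl h1
  obtain ⟨f, hf1, hf2⟩ := LimF.searchT hYes (hExt.and hProg) (by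
    rintro ⟨⟨p, e, a⟩, j, k⟩ ⟨⟨n, b, v⟩, hn, hb, hv, hlt⟩
    simp only at hn hb hv hlt
    rcases hb.hit A with ⟨⟨τ, u⟩, ⟨h1, h2⟩, h3, h4, h5⟩ | ⟨⟨τ, u⟩, ⟨h1, h2⟩, h3, h4, h5⟩
    · simp only [length_pre] at h1 h2 h3 h4 h5
      refine ⟨((τ, p.2), n, u, v), ⟨⟨h4, List.prefix_rfl⟩, ?_, newIn_self _ _ _⟩, hn, hv,
        by simp only; omega, Or.inl h3⟩
      intro i hi hi2 hi3
      exact (getD_pre_eq A hi (lt_of_lt_of_le hi h1)).trans (h5 i hi hi2 hi3)
    · simp only [length_pre] at h1 h2 h3 h4 h5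
      refine ⟨((p.1, τ), n, u, v), ⟨⟨List.prefix_rfl, h4⟩, newIn_self _ _ _, ?_⟩, hn, hv,
        by simp only; omega, Or.inr h3⟩
      intro i hi hi2 hi3
      exact (getD_pre_eq A hi (lt_of_lt_of_le hi h1)).trans (h5 i hi hi2 hi3))
  refine ⟨fun r => if Yes r then (f r).1 else r.1.1, ?_, fun r => ?_⟩
  · have h1 : LimF (fun r : (Pos × Code × Code) × Code × ℕ => (f r).1) :=
      LimF.comp (LimF.of_computable Computable.fst) hf1
    have h2 : LimF (fun r : (Pos × Code × Code) × Code × ℕ => r.1.1) :=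
      LimF.of_computable (Computable.fst.comp Computable.fst)
    refine (LimF.ite hYes h1 h2).congr fun r => ?_
    congr
  · by_cases hr : Yes r
    · simp only [if_pos hr]
      exact ⟨(hf2 r hr).1, fun _ => ⟨_, (hf2 r hr).2⟩⟩
    · simp only [if_neg hr]
      exact ⟨⟨⟨List.prefix_rfl, List.prefix_rfl⟩, newIn_self _ _ _, newIn_self _ _ _⟩,
        fun h => absurd h hr⟩

/-- one step of the construction is limit computable -/
theorem exists_step (hA : LimF A) (hY : Low Y) (hn1 : ∀ n, ∃ y, n ≤ y ∧ A y = true)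
    (hn2 : ∀ n, ∃ y, n ≤ y ∧ A y = false)
    (hp : ∀ (q : Q) (l : ℕ), (∃ y, l ≤ y ∧ A y = false ∧ col Y (encode q) y = false) ∨
      ∃ v, ∀ y, v ≤ y → col Y (encode q) y = true)
    {g : Code × ℕ → Code} (hg : LimF g) :
    ∃ F : Code × List (State × ℕ) → State, LimF F ∧
      ∀ c h, StepSpec A Y (g (c, h.length)) h.length (encode h) (st h) (F (c, h)) := by
  classical
  obtain ⟨G, hG1, hG2⟩ := exists_grow hA hn1 hn2
  obtain ⟨W, hW1, hW2⟩ := exists_psrch hA hY hp
  obtain ⟨T, hT1, hT2⟩ := exists_ans hA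
  -- basic functions
  have hs : Computable (fun x : Code × List (State × ℕ) => st x.2) :=
    primrec_st.to_comp.comp Computable.snd
  have hpos := LimF.of_computable (Computable.fst.comp hs)
  have hσ := LimF.of_computable (Computable.fst.comp (Computable.fst.comp hs))
  have hκ := LimF.of_computable (Computable.snd.comp (Computable.fst.comp hs))
  have ha := LimF.of_computable (Computable.fst.comp (Computable.snd.comp hs))
  have hpd := LimF.of_computable (Computable.fst.comp (Computable.snd.comp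
    (Computable.snd.comp hs)))
  have hcr := LimF.of_computable (Computable.fst.comp (Computable.snd.comp
    (Computable.snd.comp (Computable.snd.comp hs))))
  have hm := LimF.of_computable (Computable.snd.comp (Computable.snd.comp
    (Computable.snd.comp (Computable.snd.comp hs))))
  have hm1 := LimF.of_computable (Computable.succ.comp (Computable.snd.comp (Computable.snd.comp
    (Computable.snd.comp (Computable.snd.comp hs)))))
  have hlen : LimF (fun x : Code × List (State × ℕ) => x.2.length) :=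
    LimF.of_computable (Primrec.list_length.to_comp.comp Computable.snd)
  have henc : LimF (fun x : Code × List (State × ℕ) => encode x.2) :=
    LimF.of_computable (Computable.encode.comp Computable.snd)
  have ha' : LimF (fun x : Code × List (State × ℕ) => g (x.1, x.2.length)) :=
    LimF.comp hg (LimF.pair (LimF.of_computable Computable.fst) hlen)
  have hnone : LimF (fun _ : Code × List (State × ℕ) => (none : Option Q)) :=
    LimF.of_computable (Computable.const none)
  let q0 : Q := (([], []), Code.zero, Code.zero, 0)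
  let qf : Code × List (State × ℕ) → Q := fun x => (st x.2).2.2.1.getD q0
  have hq : LimF qf := by
    have h1 : Computable (fun o : Option Q => o.getD q0) :=
      (Primrec.option_getD.comp Primrec.id (Primrec.const q0)).to_comp
    exact LimF.comp (LimF.of_computable h1) hpd
  have hqe : LimF (fun x => (qf x).2.1) :=
    LimF.comp (f := fun q : Q => q.2.1)
      (LimF.of_computable (Computable.fst.comp Computable.snd)) hq
  have hqa : LimF (fun x => (qf x).2.2.1) :=
    LimF.comp (f := fun q : Q => q.2.2.1)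
      (LimF.of_computable (Computable.fst.comp (Computable.snd.comp Computable.snd))) hq
  let wf : Code × List (State × ℕ) → ℕ := fun x => W ((st x.2).1.2.length, qf x)
  have hw : LimF wf := LimF.comp hW1 (LimF.pair
    (LimF.comp (LimF.of_computable Primrec.list_length.to_comp) hκ) hq)
  have hw1 : LimF (fun x => (wf x).unpair.1) :=
    LimF.comp (f := fun n : ℕ => n.unpair.1) (LimF.of_computable (Computable.fst.comp Computable.unpair)) hw
  have hw2 : LimF (fun x => (wf x).unpair.2) :=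
    LimF.comp (f := fun n : ℕ => n.unpair.2) (LimF.of_computable (Computable.snd.comp Computable.unpair)) hw
  have hrq : LimF (fun x : Code × List (State × ℕ) => req (st x.2).2.2.2.2) :=
    LimF.comp (LimF.of_computable primrec_req.to_comp) hm
  have hre : LimF (fun x : Code × List (State × ℕ) => (req (st x.2).2.2.2.2).1) :=
    LimF.comp (LimF.of_computable Computable.fst) hrq
  have hrj : LimF (fun x : Code × List (State × ℕ) => (req (st x.2).2.2.2.2).2) :=
    LimF.comp (LimF.of_computable Computable.snd) hrq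
  have hE : LimF (fun q : List Bool × ℕ => ext1 q.1 q.2) :=
    LimF.of_computable primrec_ext1.to_comp
  have hP : LimF (fun q : List Bool × ℕ => padTo q.1 q.2) :=
    LimF.of_computable primrec_padTo.to_comp
  have hcons : LimF (fun q : Code × List Code => q.1 :: q.2) :=
    LimF.of_computable (Primrec.list_cons.comp Primrec.fst Primrec.snd).to_comp
  have hsome : LimF (fun q : Q => some q) := LimF.of_computable Computable.option_some
  -- branches
  have B1 : LimF (fun x : Code × List (State × ℕ) => (((((st x.2).1.1,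
      ext1 (st x.2).1.2 (wf x).unpair.2), g (x.1, x.2.length), (st x.2).2.2) : State))) :=
    LimF.pair (LimF.pair hσ (LimF.comp hE (LimF.pair hκ hw2))) (LimF.pair ha'
      (LimF.pair hpd (LimF.pair hcr hm)))
  have B2 : LimF (fun x : Code × List (State × ℕ) => ((G (padTo (st x.2).1.1 (wf x).unpair.2,
      padTo (st x.2).1.2 (wf x).unpair.2), g (x.1, x.2.length), none,
      (qf x).2.1 :: (st x.2).2.2.2.1, (st x.2).2.2.2.2) : State)) :=
    LimF.pair (LimF.comp hG1 (LimF.pair (LimF.comp hP (LimF.pair hσ hw2))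
      (LimF.comp hP (LimF.pair hκ hw2)))) (LimF.pair ha' (LimF.pair hnone
        (LimF.pair (LimF.comp hcons (LimF.pair hqe hcr)) hm)))
  have B3 : LimF (fun x : Code × List (State × ℕ) => ((G (st x.2).1, g (x.1, x.2.length), none,
      (st x.2).2.2.2.1, (st x.2).2.2.2.2) : State)) :=
    LimF.pair (LimF.comp hG1 hpos) (LimF.pair ha' (LimF.pair hnone (LimF.pair hcr hm)))
  have B4 : LimF (fun x : Code × List (State × ℕ) => (((st x.2).1, g (x.1, x.2.length),
      some ((st x.2).1, (req (st x.2).2.2.2.2).1, (st x.2).2.1, encode x.2),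
      (st x.2).2.2.2.1, (st x.2).2.2.2.2 + 1) : State)) :=
    LimF.pair hpos (LimF.pair ha' (LimF.pair (LimF.comp hsome (LimF.pair hpos (LimF.pair hre
      (LimF.pair ha henc)))) (LimF.pair hcr hm1)))
  have B5 : LimF (fun x : Code × List (State × ℕ) => ((G (T (((st x.2).1,
      (req (st x.2).2.2.2.2).1, (st x.2).2.1), (req (st x.2).2.2.2.2).2, x.2.length)),
      g (x.1, x.2.length), none, (st x.2).2.2.2.1, (st x.2).2.2.2.2 + 1) : State)) :=
    LimF.pair (LimF.comp hG1 (LimF.comp hT1 (LimF.pair (LimF.pair hpos (LimF.pair hre ha))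
      (LimF.pair hrj hlen)))) (LimF.pair ha' (LimF.pair hnone (LimF.pair hcr hm1)))
  -- conditions
  have C1 : LimP (fun x : Code × List (State × ℕ) => (st x.2).2.2.1 = none) :=
    LimP.eq hpd hnone
  have C2 : LimP (fun x : Code × List (State × ℕ) => (qf x).2.2.1 = (st x.2).2.1) :=
    LimP.eq hqa ha
  have C3 : LimP (fun x : Code × List (State × ℕ) => (wf x).unpair.1 = 0) :=
    LimP.eq hw1 (LimF.of_computable (Computable.const 0))
  have C4 : LimP (fun x : Code × List (State × ℕ) =>
      (req (st x.2).2.2.2.2).1 ∈ (st x.2).2.2.2.1) := by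
    have h1 : PrimrecPred (fun q : Code × List Code => q.1 ∈ q.2) := by
      have h2 : PrimrecPred (fun q : (Code × List Code) × ℕ => q.1.2[q.2]? = some q.1.1) :=
        Primrec.eq.comp (Primrec.list_getElem?.comp (Primrec.snd.comp Primrec.fst) Primrec.snd)
          (Primrec.option_some.comp (Primrec.fst.comp Primrec.fst))
      refine (prim_exists_lt h2 (f := fun q : Code × List Code => q.2.length)
        (Primrec.list_length.comp Primrec.snd)).of_eq ?_
      rintro ⟨c, l⟩
      simp only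
      constructor
      · rintro ⟨i, _, hi⟩
        exact List.mem_of_getElem? hi
      · intro h
        obtain ⟨i, hi, h3⟩ := List.getElem_of_mem h
        exact ⟨i, hi, by rw [← h3]; simp⟩
    exact LimP.comp (LimP.of_primrec h1) (LimF.pair hre hcr)
  have C5 : LimP (fun x : Code × List (State × ℕ) => ∃ b, Qb (((st x.2).1,
      (req (st x.2).2.2.2.2).1, (st x.2).2.1, encode x.2), b)) := by
    have h1 : LimP (fun q : Q => ∃ b, Qb (q, b)) := limP_of_sig (D := {zeroO}) rfl
      (Sig.ex (S := fun _ (p : Q × ℕ) => Qb p) sig_qb)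
    exact LimP.comp (p := fun q : Q => ∃ b, Qb (q, b)) h1
      (LimF.pair hpos (LimF.pair hre (LimF.pair ha henc)))
  have hF := LimF.ite C1 (LimF.ite (C4.or C5) B5 B4) (LimF.ite C2 (LimF.ite C3 B1 B2) B3)
  refine ⟨_, hF, fun c h => ?_⟩
  simp only
  set s := st h with hsdef
  by_cases c1 : s.2.2.1 = none
  · rw [if_pos c1]
    by_cases c4 : (req s.2.2.2.2).1 ∈ s.2.2.2.1 ∨
        ∃ b, Qb ((s.1, (req s.2.2.2.2).1, s.2.1, encode h), b)
    · rw [if_pos c4]
      have hT3 := hT2 ((s.1, (req s.2.2.2.2).1, s.2.1), (req s.2.2.2.2).2, h.length)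
      exact ⟨rfl, Or.inr (Or.inr (Or.inr (Or.inr ⟨c1, fun hh => c4.resolve_left hh, rfl,
        _, hT3.1, hG2 _, fun _ hy => hT3.2 hy⟩)))⟩
    · rw [if_neg c4]
      push Not at c4
      refine ⟨rfl, Or.inr (Or.inr (Or.inr (Or.inl ⟨c1, c4.1, ?_, rfl, rfl⟩)))⟩
      push Not
      exact c4.2
  · rw [if_neg c1]
    obtain ⟨q, hqq⟩ := Option.ne_none_iff_exists'.1 c1
    have hqf : qf (c, h) = q := by
      show (st h).2.2.1.getD q0 = q
      rw [← hsdef, hqq]
      rfl
    rw [hqf]
    by_cases c2 : q.2.2.1 = s.2.1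
    · rw [if_pos c2]
      have hwf := hW2 s.1.2.length q
      have hwf2 : wf (c, h) = W (s.1.2.length, q) := by
        show W ((st h).1.2.length, qf (c, h)) = _
        rw [hqf]
      rw [hwf2]
      rcases hwf with ⟨w1, w2, w3, w4⟩ | ⟨w1, w2⟩
      · rw [if_pos w1]
        exact ⟨rfl, Or.inl ⟨q, _, hqq, c2, w2, w3, w4, rfl, rfl⟩⟩
      · rw [if_neg w1]
        exact ⟨rfl, Or.inr (Or.inl ⟨q, _, hqq, c2, w2, hG2 _, rfl⟩)⟩
    · rw [if_neg c2]
      exact ⟨rfl, Or.inr (Or.inr (Or.inl ⟨q, hqq, c2, hG2 _, rfl⟩))⟩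

end

end HighD2
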