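import Mathlib
import Pool.Agent.HighD2.Constr

/-!
Verification of the construction.
-/

set_option autoImplicit false

namespace HighD2

open Encodable Denumerable Filter
open Nat.Partrec (Code)
open JumpDeg

/-! ### limits of chains of strings -/

/-- the union of a chain of strings -/
noncomputable def limOf (f : ℕ → List Bool) (x : ℕ) : Bool :=
  open Classical in decide (∃ k, (f k).getD x false = true)

lemma getD_lt {σ : List Bool} {i : ℕ} (h : σ.getD i false = true) : i < σ.length := by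
  by_contra hc
  rw [List.getD, List.getElem?_eq_none (by omega)] at h
  cases h

lemma getD_prefix {σ τ : List Bool} (h : σ <+: τ) {i : ℕ} (hi : i < σ.length) :
    τ.getD i false = σ.getD i false := by
  obtain ⟨ρ, rfl⟩ := h
  rw [List.getD_append _ _ _ _ hi]

lemma getD_prefix_true {σ τ : List Bool} (h : σ <+: τ) {i : ℕ} (hi : σ.getD i false = true) :
    τ.getD i false = true := by
  rw [getD_prefix h (getD_lt hi), hi]

section Chain
variable {f : ℕ → List Bool}

lemma chain_mono (hf : ∀ k, f k <+: f (k + 1)) {k k' : ℕ} (h : k ≤ k') : f k <+: f k' := by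
  induction h with
  | refl => exact List.prefix_rfl
  | step _ ih => exact ih.trans (hf _)

lemma limOf_iff {x : ℕ} : limOf f x = true ↔ ∃ k, (f k).getD x false = true := by
  unfold limOf
  simp

lemma limOf_eq (hf : ∀ k, f k <+: f (k + 1)) {k i : ℕ} (hi : i < (f k).length) :
    limOf f i = (f k).getD i false := by
  cases h : (f k).getD i false
  · by_contra hc
    rw [Bool.not_eq_false, limOf_iff] at hc
    obtain ⟨k', hk'⟩ := hc
    rcases le_total k k' with h1 | h1
    · rw [getD_prefix (chain_mono hf h1) hi, h] at hk'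
      cases hk'
    · rw [getD_prefix_true (chain_mono hf h1) hk'] at h
      cases h
  · exact limOf_iff.2 ⟨k, h⟩

lemma chain_pre (hf : ∀ k, f k <+: f (k + 1)) (k : ℕ) :
    f k <+: JumpDeg.pre (limOf f) (f k).length := by
  rw [prefix_pre_iff]
  refine ⟨le_rfl, fun i hi => ?_⟩
  rw [limOf_eq hf hi, List.getD, List.getElem?_eq_getElem hi]
  rfl

lemma chain_unbounded (hf : ∀ k, f k <+: f (k + 1))
    (h : ∀ k0, ∃ k, k0 ≤ k ∧ ∃ y, (f k).length ≤ y ∧ (f (k + 1)).getD y false = true) :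
    ∀ N, ∃ k, N < (f k).length := by
  intro N
  induction N with
  | zero =>
    obtain ⟨k, _, y, hy1, hy2⟩ := h 0
    exact ⟨k + 1, by have := getD_lt hy2; omega⟩
  | succ N ih =>
    obtain ⟨k0, hk0⟩ := ih
    obtain ⟨k, hk, y, hy1, hy2⟩ := h k0
    have h1 := (chain_mono hf hk).length_le
    have h2 := getD_lt hy2
    exact ⟨k + 1, by omega⟩

lemma chain_infinite (hf : ∀ k, f k <+: f (k + 1))
    (h : ∀ k0, ∃ k, k0 ≤ k ∧ ∃ y, (f k).length ≤ y ∧ (f (k + 1)).getD y false = true) :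
    ∀ N, ∃ y, N < y ∧ limOf f y = true := by
  intro N
  obtain ⟨k0, hk0⟩ := chain_unbounded hf h N
  obtain ⟨k, hk, y, hy1, hy2⟩ := h k0
  have h1 := (chain_mono hf hk).length_le
  exact ⟨y, by omega, limOf_iff.2 ⟨_, hy2⟩⟩

end Chain

lemma limF_limOf {P : Type*} [Primcodable P] {f : P → ℕ → List Bool}
    (hF : LimF (fun q : P × ℕ => f q.1 q.2)) (hf : ∀ p k, f p k <+: f p (k + 1))
    (hu : ∀ p N, ∃ k, N < (f p k).length) : LimF (fun q : P × ℕ => limOf (f q.1) q.2) := by
  have hx : LimF (fun w : (P × ℕ) × ℕ => f w.1.1 w.2) :=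
    LimF.comp hF (LimF.of_computable (Computable.pair (Computable.fst.comp Computable.fst)
      Computable.snd))
  obtain ⟨K, hK1, hK2⟩ := LimF.search' (p := fun w : (P × ℕ) × ℕ => w.1.2 < (f w.1.1 w.2).length)
    (LimP.comp (p := fun q : ℕ × List Bool => q.1 < q.2.length)
      (f := fun w : (P × ℕ) × ℕ => (w.1.2, f w.1.1 w.2))
      (LimP.of_primrec (Primrec.nat_lt.comp Primrec.fst
        (Primrec.list_length.comp Primrec.snd)))
      (LimF.pair (LimF.of_computable (Computable.snd.comp Computable.fst)) hx))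
    (by rintro ⟨p, x⟩; exact hu p x)
  have h1 : LimF (fun q : P × ℕ => (f q.1 (K q)).getD q.2 false) := by
    have h2 : Computable (fun w : List Bool × ℕ => w.1.getD w.2 false) :=
      ((Primrec.list_getD false).comp Primrec.fst Primrec.snd).to_comp
    exact LimF.comp (LimF.of_computable h2) (LimF.pair
      (LimF.comp hF (LimF.pair (LimF.of_computable Computable.fst) hK1))
      (LimF.of_computable Computable.snd))
  exact h1.congr fun q => (limOf_eq (hf q.1) (hK2 q)).symm

/-! ### elementary facts on `ext1`, `Grow`, `Ext` -/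

lemma length_padTo (σ : List Bool) (v : ℕ) : (padTo σ v).length = max σ.length v := by
  unfold padTo
  simp
  omega

lemma prefix_padTo (σ : List Bool) (v : ℕ) : σ <+: padTo σ v := List.prefix_append _ _

lemma padTo_getD {σ : List Bool} {v i : ℕ} (h : (padTo σ v).getD i false = true) :
    σ.getD i false = true := by
  by_cases hi : i < σ.length
  · rwa [getD_prefix (prefix_padTo σ v) hi] at h
  · exfalso
    have h1 := getD_lt h
    unfold padTo at h h1
    rw [List.getD_append_right _ _ _ _ (by omega)] at h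
    rw [List.getD, List.getElem?_map] at h
    cases h2 : (List.range (v - σ.length))[i - σ.length]? with
    | none => rw [h2] at h; cases h
    | some a => rw [h2] at h; cases h

lemma prefix_ext1 (σ : List Bool) (y : ℕ) : σ <+: ext1 σ y :=
  (prefix_padTo σ y).trans (List.prefix_append _ _)

lemma ext1_getD_self {σ : List Bool} {y : ℕ} (h : σ.length ≤ y) :
    (ext1 σ y).getD y false = true := by
  unfold ext1
  have h1 : (padTo σ y).length = y := by rw [length_padTo]; omega
  rw [List.getD_append_right _ _ _ _ (by omega), h1]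
  simp

lemma ext1_getD {σ : List Bool} {y i : ℕ} (h : σ.length ≤ y)
    (hi : (ext1 σ y).getD i false = true) : σ.getD i false = true ∨ i = y := by
  have h1 : (padTo σ y).length = y := by rw [length_padTo]; omega
  have h2 := getD_lt hi
  by_cases h3 : i < y
  · left
    unfold ext1 at hi
    rw [List.getD_append _ _ _ _ (by omega)] at hi
    exact padTo_getD hi
  · right
    unfold ext1 at h2
    simp only [List.length_append, List.length_singleton] at h2
    omega

section
variable {A : ℕ → Bool}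

/-- positions inside `A × Ā` -/
def Good (A : ℕ → Bool) (p : Pos) : Prop :=
  (∀ i, p.1.getD i false = true → A i = true) ∧ ∀ i, p.2.getD i false = true → A i = false

lemma Grow.pfx {p p' : Pos} (h : Grow A p p') : p.1 <+: p'.1 ∧ p.2 <+: p'.2 := by
  obtain ⟨y₁, y₂, h1, h2, h3, h4, rfl⟩ := h
  exact ⟨prefix_ext1 _ _, prefix_ext1 _ _⟩

lemma Grow.good {p p' : Pos} (h : Grow A p p') (hp : Good A p) : Good A p' := by
  obtain ⟨y₁, y₂, h1, h2, h3, h4, rfl⟩ := h
  refine ⟨fun i hi => ?_, fun i hi => ?_⟩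
  · rcases ext1_getD h1 hi with h5 | rfl
    · exact hp.1 i h5
    · exact h2
  · rcases ext1_getD h3 hi with h5 | rfl
    · exact hp.2 i h5
    · exact h4

lemma Grow.new1 {p p' : Pos} (h : Grow A p p') :
    ∃ y, p.1.length ≤ y ∧ p'.1.getD y false = true := by
  obtain ⟨y₁, y₂, h1, h2, h3, h4, rfl⟩ := h
  exact ⟨y₁, h1, ext1_getD_self h1⟩

lemma Grow.new2 {p p' : Pos} (h : Grow A p p') :
    ∃ y, p.2.length ≤ y ∧ p'.2.getD y false = true := by
  obtain ⟨y₁, y₂, h1, h2, h3, h4, rfl⟩ := h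
  exact ⟨y₂, h3, ext1_getD_self h3⟩

lemma good_pad {p : Pos} {v : ℕ} (hp : Good A p) : Good A (padTo p.1 v, padTo p.2 v) :=
  ⟨fun i hi => hp.1 i (padTo_getD hi), fun i hi => hp.2 i (padTo_getD hi)⟩

lemma Ext.good {p p' : Pos} (h : Ext A p p') (hp : Good A p) : Good A p' := by
  obtain ⟨⟨h1, h2⟩, h3, h4⟩ := h
  refine ⟨fun i hi => ?_, fun i hi => ?_⟩
  · by_cases h5 : i < p.1.length
    · rw [getD_prefix h1 h5] at hi
      exact hp.1 i hi
    · have h6 := h3 i (getD_lt hi) (by omega) hi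
      rwa [getD_pre A (getD_lt hi)] at h6
  · by_cases h5 : i < p.2.length
    · rw [getD_prefix h2 h5] at hi
      exact hp.2 i hi
    · have h6 := h4 i (getD_lt hi) (by omega) hi
      rwa [getD_pre A (getD_lt hi)] at h6

end

/-! ### the construction -/

/-- the data of a run of the construction -/
structure Run (A Y : ℕ → Bool) (a : ℕ → Code) (nn : ℕ → ℕ) (s : ℕ → State) : Prop where
  zero : s 0 = (([], []), Code.zero, none, [], 0)
  step : ∀ k, StepSpec A Y (a k) k (nn k) (s k) (s (k + 1))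
  split : ∀ q : Q, (¬ ∃ b, Qb (q, b)) → ∀ t, ¬ Hit q (JumpDeg.pre (col Y (encode q)) t)

namespace Run

variable {A Y : ℕ → Bool} {a : ℕ → Code} {nn : ℕ → ℕ} {s : ℕ → State}

lemma prefix_succ (R : Run A Y a nn s) (k : ℕ) :
    (s k).1.1 <+: (s (k + 1)).1.1 ∧ (s k).1.2 <+: (s (k + 1)).1.2 := by
  rcases (R.step k).2 with ⟨q, y, h1, h2, h3, h4, h5, h6, h7⟩ | ⟨q, v, h1, h2, h3, h4, h5⟩ |
    ⟨q, h1, h2, h3, h4⟩ | ⟨h1, h2, h3, h4, h5⟩ | ⟨h1, h2, h3, p', h4, h5, h6⟩
  · rw [h6]
    exact ⟨List.prefix_rfl, prefix_ext1 _ _⟩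
  · exact ⟨(prefix_padTo _ _).trans h4.pfx.1, (prefix_padTo _ _).trans h4.pfx.2⟩
  · exact h3.pfx
  · rw [h4]
    exact ⟨List.prefix_rfl, List.prefix_rfl⟩
  · exact ⟨h4.1.1.trans h5.pfx.1, h4.1.2.trans h5.pfx.2⟩

lemma good (R : Run A Y a nn s) (k : ℕ) : Good A (s k).1 := by
  induction k with
  | zero =>
    rw [R.zero]
    refine ⟨fun i hi => ?_, fun i hi => ?_⟩
    · have := getD_lt hi
      simp at this
    · have := getD_lt hi
      simp at this
  | succ k ih =>
    rcases (R.step k).2 with ⟨q, y, h1, h2, h3, h4, h5, h6, h7⟩ | ⟨q, v, h1, h2, h3, h4, h5⟩ |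
      ⟨q, h1, h2, h3, h4⟩ | ⟨h1, h2, h3, h4, h5⟩ | ⟨h1, h2, h3, p', h4, h5, h6⟩
    · rw [h6]
      refine ⟨ih.1, fun i hi => ?_⟩
      rcases ext1_getD h3 hi with h8 | rfl
      · exact ih.2 i h8
      · exact h4
    · exact h4.good (good_pad ih)
    · exact h3.good ih
    · rw [h4]
      exact ih
    · exact h5.good (h4.good ih)

/-- the invariant of pending questions -/
lemma pend (R : Run A Y a nn s) (k : ℕ) : ∀ q, (s k).2.2.1 = some q →
    (s k).1.1 = q.1.1 ∧ q.1.2 <+: (s k).1.2 ∧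
      (∀ i, q.1.2.length ≤ i → (s k).1.2.getD i false = true → col Y (encode q) i = false) ∧
      ¬ ∃ b, Qb (q, b) := by
  induction k with
  | zero =>
    intro q hq
    rw [R.zero] at hq
    cases hq
  | succ k ih =>
    intro q hq
    rcases (R.step k).2 with ⟨q', y, h1, h2, h3, h4, h5, h6, h7⟩ | ⟨q', v, h1, h2, h3, h4, h5⟩ |
      ⟨q', h1, h2, h3, h4⟩ | ⟨h1, h2, h3, h4, h5⟩ | ⟨h1, h2, h3, p', h4, h5, h6⟩
    · have hqq : q' = q := by
        rw [h7, h1] at hq
        exact Option.some.inj hq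
      subst hqq
      obtain ⟨i1, i2, i3, i4⟩ := ih q' h1
      rw [h6]
      refine ⟨i1, i2.trans (prefix_ext1 _ _), fun i hi hi2 => ?_, i4⟩
      rcases ext1_getD h3 hi2 with h8 | rfl
      · exact i3 i hi h8
      · exact h5
    · rw [h5] at hq
      cases hq
    · rw [h4] at hq
      cases hq
    · rw [h5] at hq
      obtain rfl := Option.some.inj hq
      rw [h4]
      refine ⟨rfl, List.prefix_rfl, fun i hi hi2 => ?_, h3⟩
      have := getD_lt hi2
      simp only at hi
      omega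
    · rw [h3] at hq
      cases hq

/-- credited codes diverge -/
lemma cred (R : Run A Y a nn s) (k : ℕ) : ∀ e ∈ (s k).2.2.2.1, ∃ n, ∀ X : ℕ → Bool,
    (s k).1.1 <+: JumpDeg.pre X (s k).1.1.length → ∀ v, ¬ Out e X n v := by
  have hmono : ∀ k (X : ℕ → Bool), (s (k + 1)).1.1 <+: JumpDeg.pre X (s (k + 1)).1.1.length →
      (s k).1.1 <+: JumpDeg.pre X (s k).1.1.length := by
    intro k X hX
    have h1 := (R.prefix_succ k).1.trans hX
    have h2 := eq_pre_of_prefix h1
    rw [← h2]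
  induction k with
  | zero =>
    intro e he
    rw [R.zero] at he
    cases he
  | succ k ih =>
    intro e he
    have hold : e ∈ (s k).2.2.2.1 → ∃ n, ∀ X : ℕ → Bool,
        (s (k + 1)).1.1 <+: JumpDeg.pre X (s (k + 1)).1.1.length → ∀ v, ¬ Out e X n v := by
      intro h
      obtain ⟨n, hn⟩ := ih e h
      exact ⟨n, fun X hX => hn X (hmono k X hX)⟩
    rcases (R.step k).2 with ⟨q', y, h1, h2, h3, h4, h5, h6, h7⟩ | ⟨q, v, h1, h2, h3, h4, h5⟩ |
      ⟨q', h1, h2, h3, h4⟩ | ⟨h1, h2, h3, h4, h5⟩ | ⟨h1, h2, h3, p', h4, h5, h6⟩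
    · rw [h7] at he
      exact hold he
    · rw [h5] at he
      rcases List.mem_cons.1 he with rfl | he'
      · obtain ⟨i1, i2, i3, i4⟩ := R.pend k q h1
        refine ⟨q.2.2.2, fun X hX v' => ?_⟩
        have hsp := R.split q i4
        refine not_out_of_not_half (s := true) (σ := q.1.1) (Z := col Y (encode q))
          (fun t ht => hsp t (Or.inl ht)) ?_ ?_ v'
        · rw [← i1]
          exact hmono k X hX
        · intro i hi hXi
          by_cases hv : v ≤ i
          · exact h3 i hv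
          · exfalso
            have h8 : padTo (s k).1.1 v <+: JumpDeg.pre X (s (k + 1)).1.1.length :=
              h4.pfx.1.trans hX
            have h9 : i < (padTo (s k).1.1 v).length := by rw [length_padTo]; omega
            have h10 := (prefix_pre_iff.1 h8).2 i h9
            rw [hXi] at h10
            have h11 : (padTo (s k).1.1 v).getD i false = true := by
              rw [List.getD, List.getElem?_eq_getElem h9, h10]
              rfl
            have h12 := getD_lt (padTo_getD h11)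
            rw [i1] at h12
            omega
      · exact hold he'
    · rw [h4] at he
      exact hold he
    · rw [h5] at he
      exact hold he
    · rw [h3] at he
      exact hold he

/-- every step is a growth step or the start of a pending phase or a step inside such a phase -/
lemma cases (R : Run A Y a nn s) (k : ℕ) :
    ((∃ y, (s k).1.2.length ≤ y ∧ (s (k + 1)).1.2.getD y false = true) ∧
      ((∃ y, (s k).1.1.length ≤ y ∧ (s (k + 1)).1.1.getD y false = true) ∨
        ((s k).2.2.1 ≠ none ∧ (s (k + 1)).2.2.1 = (s k).2.2.1))) ∨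
    ((s k).2.2.1 = none ∧ (s (k + 1)).2.2.1 ≠ none) := by
  rcases (R.step k).2 with ⟨q', y, h1, h2, h3, h4, h5, h6, h7⟩ | ⟨q, v, h1, h2, h3, h4, h5⟩ |
    ⟨q', h1, h2, h3, h4⟩ | ⟨h1, h2, h3, h4, h5⟩ | ⟨h1, h2, h3, p', h4, h5, h6⟩
  · left
    refine ⟨⟨y, h3, by rw [h6]; exact ext1_getD_self h3⟩, Or.inr ⟨by rw [h1]; simp, by rw [h7]⟩⟩
  · left
    obtain ⟨y1, hy1, hy1'⟩ := h4.new1
    obtain ⟨y2, hy2, hy2'⟩ := h4.new2
    simp only [length_padTo] at hy1 hy2
    exact ⟨⟨y2, by omega, hy2'⟩, Or.inl ⟨y1, by omega, hy1'⟩⟩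
  · left
    exact ⟨h3.new2, Or.inl h3.new1⟩
  · right
    exact ⟨h1, by rw [h5]; simp⟩
  · left
    obtain ⟨y1, hy1, hy1'⟩ := h5.new1
    obtain ⟨y2, hy2, hy2'⟩ := h5.new2
    have := h4.1.1.length_le
    have := h4.1.2.length_le
    exact ⟨⟨y2, by omega, hy2'⟩, Or.inl ⟨y1, by omega, hy1'⟩⟩

lemma grow2 (R : Run A Y a nn s) (k0 : ℕ) : ∃ k, k0 ≤ k ∧
    ∃ y, (s k).1.2.length ≤ y ∧ (s (k + 1)).1.2.getD y false = true := by
  rcases R.cases k0 with h | h
  · exact ⟨k0, le_rfl, h.1⟩
  · rcases R.cases (k0 + 1) with h' | h'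
    · exact ⟨k0 + 1, Nat.le_succ _, h'.1⟩
    · exact absurd h'.1 h.2

/-- the sets built -/
noncomputable def KK (s : ℕ → State) : ℕ → Bool := limOf (fun k => (s k).1.2)

/-- the sets built -/
noncomputable def HH (s : ℕ → State) : ℕ → Bool := limOf (fun k => (s k).1.1)

lemma KK_infinite (R : Run A Y a nn s) : ∀ N, ∃ y, N < y ∧ KK s y = true :=
  chain_infinite (f := fun k => (s k).1.2) (fun k => (R.prefix_succ k).2) R.grow2

lemma KK_side (R : Run A Y a nn s) (y : ℕ) (hy : KK s y = true) : A y = false := by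
  obtain ⟨k, hk⟩ := limOf_iff.1 hy
  exact (R.good k).2 y hk

lemma HH_side (R : Run A Y a nn s) (y : ℕ) (hy : HH s y = true) : A y = true := by
  obtain ⟨k, hk⟩ := limOf_iff.1 hy
  exact (R.good k).1 y hk

lemma outS_KK (R : Run A Y a nn s) {d : Code} {k n v : ℕ} {τ : List Bool}
    (h : τ <+: (s k).1.2) (ho : OutS d τ n v) : Out d (KK s) n v :=
  ho.out (h.trans (chain_pre (f := fun k => (s k).1.2) (fun k => (R.prefix_succ k).2) k))

lemma outS_HH (R : Run A Y a nn s) {d : Code} {k n v : ℕ} {τ : List Bool}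
    (h : τ <+: (s k).1.1) (ho : OutS d τ n v) : Out d (HH s) n v :=
  ho.out (h.trans (chain_pre (f := fun k => (s k).1.1) (fun k => (R.prefix_succ k).1) k))

section
variable {d : Code} {hK : ℕ → ℕ}

/-- pending phases end -/
lemma pend_ends (R : Run A Y a nn s) (hd : ∀ᶠ k in atTop, a k = d)
    (hc : Computes d (KK s) hK) (k0 : ℕ) : ∃ k, k0 ≤ k ∧ (s k).2.2.1 = none := by
  by_contra hcon
  push Not at hcon
  have hne := hcon k0 le_rfl
  obtain ⟨q, hq⟩ := Option.ne_none_iff_exists'.1 hne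
  have hall : ∀ k, k0 ≤ k → (s k).2.2.1 = some q ∧ q.2.2.1 = (s k).2.1 := by
    have hstep : ∀ k, k0 ≤ k → (s k).2.2.1 = some q →
        q.2.2.1 = (s k).2.1 ∧ (s (k + 1)).2.2.1 = some q := by
      intro k hk hkq
      rcases (R.step k).2 with ⟨q', y, h1, h2, h3, h4, h5, h6, h7⟩ |
        ⟨q', v, h1, h2, h3, h4, h5⟩ |
        ⟨q', h1, h2, h3, h4⟩ | ⟨h1, h2, h3, h4, h5⟩ | ⟨h1, h2, h3, p', h4, h5, h6⟩
      · rw [hkq] at h1
        obtain rfl := Option.some.inj h1
        exact ⟨h2, by rw [h7, hkq]⟩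
      · exact absurd (by rw [h5]) (hcon (k + 1) (by omega))
      · exact absurd (by rw [h4]) (hcon (k + 1) (by omega))
      · rw [hkq] at h1
        cases h1
      · rw [hkq] at h1
        cases h1
    have h2 : ∀ k, k0 ≤ k → (s k).2.2.1 = some q := by
      intro k hk
      induction hk with
      | refl => exact hq
      | step hk ih => exact (hstep _ hk ih).2
    exact fun k hk => ⟨h2 k hk, (hstep k hk (h2 k hk)).1⟩
  obtain ⟨k1, hk1⟩ := eventually_atTop.1 hd
  have hqd : q.2.2.1 = d := by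
    have h1 := (hall (max k0 k1 + 1) (by omega)).2
    rw [h1, (R.step (max k0 k1)).1]
    exact hk1 _ (le_max_right _ _)
  obtain ⟨i1, i2, i3, i4⟩ := R.pend k0 q hq
  have hpre : q.1.2 <+: JumpDeg.pre (KK s) q.1.2.length := by
    have h1 := i2.trans (chain_pre (f := fun k => (s k).1.2) (fun k => (R.prefix_succ k).2) k0)
    have h2 := eq_pre_of_prefix h1
    show q.1.2 <+: JumpDeg.pre (limOf (fun k => (s k).1.2)) q.1.2.length
    rw [← h2]
  have hZ : ∀ i, q.1.2.length ≤ i → KK s i = true → col Y (encode q) i = false := by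
    intro i hi hKi
    obtain ⟨k, hk⟩ := limOf_iff.1 hKi
    have h1 := chain_mono (f := fun k => (s k).1.2) (fun k => (R.prefix_succ k).2)
      (le_max_left k k0)
    exact (R.pend (max k k0) q (hall _ (le_max_right _ _)).1).2.2.1 i hi (getD_prefix_true h1 hk)
  have hno := not_out_of_not_half (s := false) (σ := q.1.2) (e := q.2.2.1) (n := q.2.2.2)
    (Z := col Y (encode q)) (X := KK s) (fun t ht => R.split q i4 t (Or.inr ht)) hpre hZ
    (hK q.2.2.2)
  rw [hqd] at hno
  exact hno ((hc _ _).2 rfl)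

lemma grow1 (R : Run A Y a nn s) (hd : ∀ᶠ k in atTop, a k = d)
    (hc : Computes d (KK s) hK) (k0 : ℕ) : ∃ k, k0 ≤ k ∧
      ∃ y, (s k).1.1.length ≤ y ∧ (s (k + 1)).1.1.getD y false = true := by
  by_contra hcon
  obtain ⟨k, hk, hkn⟩ := R.pend_ends hd hc k0
  have h1 : (s (k + 1)).2.2.1 ≠ none := by
    rcases R.cases k with ⟨_, h | h⟩ | h
    · exact absurd ⟨k, hk, h⟩ hcon
    · exact absurd hkn h.1
    · exact h.2
  have h2 : ∀ i, k + 1 ≤ i → (s i).2.2.1 ≠ none := by
    intro i hi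
    induction hi with
    | refl => exact h1
    | step hi ih =>
      rename_i i
      have hi' : k + 1 ≤ i := hi
      rcases R.cases i with ⟨_, h | h⟩ | h
      · exact absurd ⟨i, by omega, h⟩ hcon
      · show (s (i + 1)).2.2.1 ≠ none
        rw [h.2]
        exact h.1
      · exact h.2
  obtain ⟨k', hk', hn⟩ := R.pend_ends hd hc (k + 1)
  exact h2 k' hk' hn

lemma HH_infinite (R : Run A Y a nn s) (hd : ∀ᶠ k in atTop, a k = d)
    (hc : Computes d (KK s) hK) : ∀ N, ∃ y, N < y ∧ HH s y = true :=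
  chain_infinite (f := fun k => (s k).1.1) (fun k => (R.prefix_succ k).1) (R.grow1 hd hc)

lemma counter (R : Run A Y a nn s) (hd : ∀ᶠ k in atTop, a k = d)
    (hc : Computes d (KK s) hK) (M : ℕ) : ∃ k, (s k).2.2.1 = none ∧ (s k).2.2.2.2 = M := by
  have hstep : ∀ k, (s k).2.2.1 ≠ none → (s (k + 1)).2.2.2.2 = (s k).2.2.2.2 := by
    intro k hk
    rcases (R.step k).2 with ⟨q', y, h1, h2, h3, h4, h5, h6, h7⟩ | ⟨q, v, h1, h2, h3, h4, h5⟩ |
      ⟨q', h1, h2, h3, h4⟩ | ⟨h1, h2, h3, h4, h5⟩ | ⟨h1, h2, h3, p', h4, h5, h6⟩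
    · rw [h7]
    · rw [h5]
    · rw [h4]
    · exact absurd h1 hk
    · exact absurd h1 hk
  have hstep' : ∀ k, (s k).2.2.1 = none → (s (k + 1)).2.2.2.2 = (s k).2.2.2.2 + 1 := by
    intro k hk
    rcases (R.step k).2 with ⟨q', y, h1, h2, h3, h4, h5, h6, h7⟩ | ⟨q, v, h1, h2, h3, h4, h5⟩ |
      ⟨q', h1, h2, h3, h4⟩ | ⟨h1, h2, h3, h4, h5⟩ | ⟨h1, h2, h3, p', h4, h5, h6⟩
    · rw [hk] at h1
      cases h1
    · rw [hk] at h1
      cases h1
    · rw [hk] at h1
      cases h1
    · rw [h5]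
    · rw [h3]
  induction M with
  | zero => exact ⟨0, by rw [R.zero], by rw [R.zero]⟩
  | succ M ih =>
    obtain ⟨k, hk1, hk2⟩ := ih
    classical
    have hex : ∃ i, k + 1 ≤ i ∧ (s i).2.2.1 = none := R.pend_ends hd hc (k + 1)
    have hmin : ∀ j, k + 1 ≤ j → j ≤ Nat.find hex → (s j).2.2.2.2 = M + 1 := by
      intro j hj
      induction hj with
      | refl => intro _; rw [hstep' k hk1, hk2]
      | step hj ih2 =>
        rename_i j
        intro hj2
        have h1 : (s j).2.2.1 ≠ none := fun h =>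
          Nat.find_min hex (show j < Nat.find hex by omega) ⟨hj, h⟩
        show (s (j + 1)).2.2.2.2 = M + 1
        rw [hstep j h1]
        exact ih2 (by omega)
    exact ⟨Nat.find hex, (Nat.find_spec hex).2, hmin _ (Nat.find_spec hex).1 le_rfl⟩

lemma counter_mono (R : Run A Y a nn s) {k k' : ℕ} (h : k ≤ k') :
    (s k).2.2.2.2 ≤ (s k').2.2.2.2 := by
  induction h with
  | refl => exact le_rfl
  | step hh ih =>
    rename_i k'
    refine ih.trans ?_
    show _ ≤ (s (k' + 1)).2.2.2.2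
    rcases (R.step k').2 with ⟨q', y, h1, h2, h3, h4, h5, h6, h7⟩ | ⟨q, v, h1, h2, h3, h4, h5⟩ |
      ⟨q', h1, h2, h3, h4⟩ | ⟨h1, h2, h3, h4, h5⟩ | ⟨h1, h2, h3, p', h4, h5, h6⟩
    · rw [h7]
    · rw [h5]
    · rw [h4]
    · rw [h5]
      exact Nat.le_succ _
    · rw [h3]
      exact Nat.le_succ _

lemma visit (R : Run A Y a nn s) (hd : ∀ᶠ k in atTop, a k = d)
    (hc : Computes d (KK s) hK) (e j : Code) (k0 : ℕ) :
    ∃ k, k0 ≤ k ∧ (s k).2.2.1 = none ∧ req (s k).2.2.2.2 = (e, j) := by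
  obtain ⟨k, hk1, hk2⟩ := R.counter hd hc
    (Nat.pair (Nat.pair (encode e) (encode j)) ((s k0).2.2.2.2 + 1))
  refine ⟨k, ?_, hk1, ?_⟩
  · by_contra hlt
    have h1 := R.counter_mono (show k ≤ k0 by omega)
    rw [hk2] at h1
    have h2 := Nat.right_le_pair (Nat.pair (encode e) (encode j)) ((s k0).2.2.2.2 + 1)
    omega
  · rw [hk2]
    simp [req]

/-- uncredited codes are answered positively -/
lemma positive (R : Run A Y a nn s) (hd : ∀ᶠ k in atTop, a k = d)
    (hc : Computes d (KK s) hK) {e : Code} (he : ∀ k, e ∉ (s k).2.2.2.1) {k0 : ℕ}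
    (hk0 : ∀ k, k0 ≤ k → (s k).2.1 = d) {k : ℕ} (hk : k0 ≤ k) (h1 : (s k).2.2.1 = none)
    (h2 : (req (s k).2.2.2.2).1 = e) : ∃ b, Qb (((s k).1, e, d, nn k), b) := by
  by_contra hcon
  have h3 : (s (k + 1)).2.2.1 = some ((s k).1, e, d, nn k) := by
    rcases (R.step k).2 with ⟨q', y, i1, i2, i3, i4, i5, i6, i7⟩ | ⟨q, v, i1, i2, i3, i4, i5⟩ |
      ⟨q', i1, i2, i3, i4⟩ | ⟨i1, i2, i3, i4, i5⟩ | ⟨i1, i2, i3, p', i4, i5, i6⟩
    · rw [h1] at i1
      cases i1
    · rw [h1] at i1
      cases i1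
    · rw [h1] at i1
      cases i1
    · rw [i5, h2, hk0 k hk]
    · rw [h2, hk0 k hk] at i2
      exact absurd (i2 (he k)) hcon
  have h4 : ∀ i, k + 1 ≤ i → (s i).2.2.1 = some ((s k).1, e, d, nn k) := by
    intro i hi
    induction hi with
    | refl => exact h3
    | step hi ih =>
      rename_i i
      have hi' : k + 1 ≤ i := hi
      show (s (i + 1)).2.2.1 = _
      rcases (R.step i).2 with ⟨q', y, i1, i2, i3, i4, i5, i6, i7⟩ |
        ⟨q, v, i1, i2, i3, i4, i5⟩ |
        ⟨q', i1, i2, i3, i4⟩ | ⟨i1, i2, i3, i4, i5⟩ | ⟨i1, i2, i3, p', i4, i5, i6⟩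
      · rw [i7]
        exact ih
      · exfalso
        rw [ih] at i1
        obtain rfl := Option.some.inj i1
        exact he (i + 1) (by rw [i5]; exact List.mem_cons_self)
      · exfalso
        rw [ih] at i1
        obtain rfl := Option.some.inj i1
        exact i2 (hk0 i (by omega)).symm
      · rw [ih] at i1
        cases i1
      · rw [ih] at i1
        cases i1
  obtain ⟨k', hk', hn⟩ := R.pend_ends hd hc (k + 1)
  rw [h4 k' hk'] at hn
  cases hn

end

end Run

end HighD2
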