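import Mathlib
import Pool.Agent.HighD2.Verify

/-!
The main theorem: if a limit computable selection (in the limit along a second limit) picks
witnesses for the highness of all infinite limit computable subsets of the complement of `A`, then
`A` has an infinite limit computable subset that is not high.
-/

set_option autoImplicit false

namespace HighD2

open Encodable Denumerable Filter
open Nat.Partrec (Code)
open JumpDeg

/-- `c` is the code of a total computable approximation of the set `K` -/
def LimIndex (c : Code) (K : ℕ → Bool) : Prop :=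
  (∀ x t : ℕ, (c.eval (Nat.pair x t)).Dom) ∧
    ∀ x : ℕ, ∀ᶠ t in atTop, c.eval (Nat.pair x t) = Part.some (K x).toNat

lemma primrec_toNat : Primrec Bool.toNat := Primrec.dom_finite _

lemma exists_limIndex {K : ℕ → Bool} (hK : LimF K) : ∃ c, LimIndex c K := by
  obtain ⟨k', hk1, hk2⟩ := hK
  have h1 : Computable (fun n : ℕ => (k' n.unpair.1 n.unpair.2).toNat) :=
    primrec_toNat.to_comp.comp (hk1.comp (Computable.fst.comp Computable.unpair)
      (Computable.snd.comp Computable.unpair))
  obtain ⟨c, hc⟩ := Code.exists_code.1 (Partrec.nat_iff.1 h1.partrec)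
  have hc' : ∀ x t, c.eval (Nat.pair x t) = Part.some (k' x t).toNat := by
    intro x t
    rw [hc]
    simp
  refine ⟨c, fun x t => by rw [hc']; trivial, fun x => ?_⟩
  filter_upwards [hk2 x] with t ht
  rw [hc', ht]

lemma low_of_red_zero {L : ℕ → Bool} {p : ℕ → Prop} (hp : PrimrecPred p)
    (h : ∀ y, L y = true ↔ p y) : Low L := by
  refine low_zero.of_red ?_
  unfold Red
  have h1 : PrimrecPred (fun q : ℕ × Bool => (q.2 = true ∧ p q.1) ∨ (q.2 = false ∧ ¬ p q.1)) :=
    ((Primrec.eq.comp Primrec.snd (Primrec.const true)).and (hp.comp Primrec.fst)).or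
      ((Primrec.eq.comp Primrec.snd (Primrec.const false)).and (hp.comp Primrec.fst).not)
  refine (Sig.of_prim h1).congr ?_
  rintro _ _ ⟨y, b⟩
  simp only
  rw [← h y]
  cases b <;> cases L y <;> simp

lemma low_col {Y : ℕ → Bool} (hY : Low Y) (q l : ℕ) :
    Low (fun y => decide (l ≤ y) && !col Y q y) := by
  refine hY.of_red ?_
  unfold Red
  have hnp : Primrec (fun x : ℕ × Bool => Nat.pair q x.1) :=
    Primrec₂.natPair.comp (Primrec.const q) Primrec.fst
  have hle : PrimrecPred (fun x : ℕ × Bool => l ≤ x.1) :=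
    Primrec.nat_le.comp (Primrec.const l) Primrec.fst
  have h1 : Sig {Y} (fun Y (x : ℕ × Bool) =>
      ((x.2 = true ∧ l ≤ x.1) ∧ Y (Nat.pair q x.1) = false) ∨
      ((x.2 = false ∧ ¬ l ≤ x.1) ∨ (x.2 = false ∧ Y (Nat.pair q x.1) = true))) := by
    refine Sig.or (Sig.and (Sig.of_prim ?_) ?_) (Sig.or (Sig.of_prim ?_) (Sig.and
      (Sig.of_prim ?_) ?_))
    · exact (Primrec.eq.comp Primrec.snd (Primrec.const true)).and hle
    · exact Sig.oracle hnp (Primrec.const false)
    · exact (Primrec.eq.comp Primrec.snd (Primrec.const false)).and hle.not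
    · exact Primrec.eq.comp Primrec.snd (Primrec.const false)
    · exact Sig.oracle hnp (Primrec.const true)
  refine h1.congr ?_
  rintro X hX ⟨y, b⟩
  rw [Set.mem_singleton_iff] at hX
  subst hX
  simp only [col]
  by_cases hl : l ≤ y
  · cases b <;> cases X (Nat.pair q y) <;> simp [hl]
  · cases b <;> cases X (Nat.pair q y) <;> simp [hl]

lemma st_append (l : List (State × ℕ)) (x : State × ℕ) : st (l ++ [x]) = x.1 := by
  unfold st
  have h1 : (l ++ [x])[(l ++ [x]).length - 1]? = some x := by
    rw [List.length_append, List.length_singleton, Nat.add_sub_cancel,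
      List.getElem?_append_right le_rfl]
    simp
  rw [h1]
  rfl

/-- domination of all computable functions -/
def Dominating (h : ℕ → ℕ) : Prop := ∀ f : ℕ → ℕ, Computable f → ∀ᶠ n in atTop, f n ≤ h n

theorem main {A : ℕ → Bool} (hA : LimF A) {g : Code × ℕ → Code} (hg : LimF g)
    (hsel : ∀ (c : Code) (K : ℕ → Bool), LimIndex c K → (∀ m, ∃ n, m < n ∧ K n = true) →
      (∀ n, K n = true → A n = false) →
      ∃ d, (∀ᶠ k in atTop, g (c, k) = d) ∧ ∃ h, Computes d K h ∧ Dominating h) :
    ∃ H : ℕ → Bool, (∀ m, ∃ n, m < n ∧ H n = true) ∧ (∀ n, H n = true → A n = true) ∧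
      LimF H ∧ ¬ ∃ h : ℕ → ℕ, Sig {H} (fun _ (p : ℕ × ℕ) => h p.1 = p.2) ∧ Dominating h := by
  classical
  by_cases hlowA : ∃ L : ℕ → Bool, Low L ∧ (∀ m, ∃ n, m < n ∧ L n = true) ∧
      ∀ n, L n = true → A n = true
  · obtain ⟨L, h1, h2, h3⟩ := hlowA
    exact ⟨L, h2, h3, LimF.of_low h1, fun ⟨h, h4, h5⟩ => not_dom_of_low h1 h4 h5⟩
  have hlowB : ¬ ∃ L : ℕ → Bool, Low L ∧ (∀ m, ∃ n, m < n ∧ L n = true) ∧
      ∀ n, L n = true → A n = false := by
    rintro ⟨L, h1, h2, h3⟩
    obtain ⟨c, hc⟩ := exists_limIndex (LimF.of_low h1)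
    obtain ⟨d, _, h, h4, h5⟩ := hsel c L hc h2 h3
    exact not_dom_of_low h1 h4.sig h5
  have hn1 : ∀ n, ∃ y, n ≤ y ∧ A y = true := by
    intro n
    by_contra hcon
    push Not at hcon
    refine hlowB ⟨fun y => decide (n ≤ y), low_of_red_zero (p := fun y => n ≤ y)
      (Primrec.nat_le.comp (Primrec.const n) Primrec.id) (by simp), fun m =>
      ⟨max n m + 1, by omega, by simp; omega⟩, fun y hy => ?_⟩
    have := hcon y (by simpa using hy)
    simpa using this
  have hn2 : ∀ n, ∃ y, n ≤ y ∧ A y = false := by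
    intro n
    by_contra hcon
    push Not at hcon
    refine hlowA ⟨fun y => decide (n ≤ y), low_of_red_zero (p := fun y => n ≤ y)
      (Primrec.nat_le.comp (Primrec.const n) Primrec.id) (by simp), fun m =>
      ⟨max n m + 1, by omega, by simp; omega⟩, fun y hy => ?_⟩
    have := hcon y (by simpa using hy)
    simpa using this
  obtain ⟨Y, hY1, hY2⟩ := exists_low_splits
  have hp : ∀ (q : Q) (l : ℕ), (∃ y, l ≤ y ∧ A y = false ∧ col Y (encode q) y = false) ∨
      ∃ v, ∀ y, v ≤ y → col Y (encode q) y = true := by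
    intro q l
    by_contra hcon
    push Not at hcon
    obtain ⟨h1, h2⟩ := hcon
    refine hlowA ⟨_, low_col hY1 (encode q) l, fun m => ?_, fun y hy => ?_⟩
    · obtain ⟨y, hy1, hy2⟩ := h2 (max l m + 1)
      refine ⟨y, by omega, ?_⟩
      have h3 : col Y (encode q) y = false := by simpa using hy2
      simp [h3]
      omega
    · simp only [Bool.and_eq_true, decide_eq_true_eq, Bool.not_eq_true'] at hy
      by_contra hAy
      exact h1 y hy.1 (by simpa using hAy) hy.2
  obtain ⟨F, hF1, hF2⟩ := exists_step hA hY1 hn1 hn2 hp hg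
  obtain ⟨h, hh1, hh2⟩ := escape hF1
  have hlen : ∀ c k, (h c k).length = k := by
    intro c k
    induction k with
    | zero => rw [(hh2 c).1]; rfl
    | succ k ih =>
      obtain ⟨t, ht⟩ := (hh2 c).2.1 k
      rw [ht]
      simp [ih]
  have hst : ∀ c k, st (h c (k + 1)) = F (c, h c k) := by
    intro c k
    obtain ⟨t, ht⟩ := (hh2 c).2.1 k
    rw [ht, st_append]
  have hRun : ∀ c, Run A Y (fun k => g (c, k)) (fun k => encode (h c k)) (fun k => st (h c k)) := by
    intro c
    refine ⟨?_, fun k => ?_, hY2⟩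
    · show st (h c 0) = _
      rw [(hh2 c).1]
      rfl
    · show StepSpec A Y (g (c, k)) k (encode (h c k)) (st (h c k)) (st (h c (k + 1)))
      rw [hst]
      have h1 := hF2 c (h c k)
      rwa [hlen] at h1
  -- the sets `K_c`
  have hstL : LimF (fun q : Code × ℕ => st (h q.1 q.2)) :=
    LimF.comp (LimF.of_computable primrec_st.to_comp) hh1
  have hKL : LimF (fun q : Code × ℕ => limOf (fun k => (st (h q.1 k)).1.2) q.2) := by
    refine limF_limOf (f := fun c k => (st (h c k)).1.2) ?_ (fun c k => ((hRun c).prefix_succ k).2)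
      (fun c => chain_unbounded (f := fun k => (st (h c k)).1.2)
        (fun k => ((hRun c).prefix_succ k).2) (hRun c).grow2)
    exact LimF.comp (f := fun s : State => s.1.2)
      (LimF.of_computable (Computable.snd.comp Computable.fst)) hstL
  obtain ⟨k', hk1, hk2⟩ := hKL
  -- recursion theorem
  have hfix : Partrec₂ (fun (c : Code) (n : ℕ) =>
      (Part.some (k' (c, n.unpair.1) n.unpair.2).toNat : Part ℕ)) := by
    have h1 : Computable (fun q : Code × ℕ => (k' (q.1, q.2.unpair.1) q.2.unpair.2).toNat) :=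
      primrec_toNat.to_comp.comp (hk1.comp (Computable.pair Computable.fst
        (Computable.fst.comp (Computable.unpair.comp Computable.snd)))
        (Computable.snd.comp (Computable.unpair.comp Computable.snd)))
    exact h1.partrec.to₂
  obtain ⟨c, hc⟩ := Code.fixed_point₂ hfix
  have R := hRun c
  have hcK : LimIndex c (Run.KK (fun k => st (h c k))) := by
    have hc' : ∀ x t, c.eval (Nat.pair x t) = Part.some (k' (c, x) t).toNat := by
      intro x t
      rw [hc]
      simp
    refine ⟨fun x t => by rw [hc']; trivial, fun x => ?_⟩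
    filter_upwards [hk2 (c, x)] with t ht
    rw [hc', ht]
    rfl
  obtain ⟨d, hd, hK, hK1, hK2⟩ := hsel c _ hcK R.KK_infinite R.KK_side
  refine ⟨Run.HH (fun k => st (h c k)), R.HH_infinite hd hK1, R.HH_side, ?_, ?_⟩
  · -- limit computability
    have h1 : LimF (fun q : Unit × ℕ => (st (h c q.2)).1.1) := by
      refine LimF.comp (f := fun s : State => s.1.1)
        (LimF.of_computable (Computable.fst.comp Computable.fst)) ?_
      exact LimF.comp (f := fun q : Code × ℕ => st (h q.1 q.2)) hstL
        (LimF.of_computable (Computable.pair (Computable.const c) Computable.snd))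
    have h2 := limF_limOf (P := Unit) (f := fun _ k => (st (h c k)).1.1) h1
      (fun _ k => (R.prefix_succ k).1)
      (fun _ => chain_unbounded (f := fun k => (st (h c k)).1.1)
        (fun k => (R.prefix_succ k).1) (R.grow1 hd hK1))
    exact LimF.comp (g := fun x : ℕ => ((), x)) h2
      (LimF.of_computable (Computable.pair (Computable.const ()) Computable.id))
  · rintro ⟨h', hs', hdom'⟩
    obtain ⟨e, he⟩ := exists_computes hs'
    have hcred : ∀ k, e ∉ (st (h c k)).2.2.2.1 := by
      intro k hk
      obtain ⟨n, hn⟩ := R.cred k e hk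
      exact hn _ (chain_pre (f := fun k => (st (h c k)).1.1) (fun k => (R.prefix_succ k).1) k)
        (h' n) ((he n _).2 rfl)
    obtain ⟨k1, hk1'⟩ := eventually_atTop.1 hd
    have hk0 : ∀ k, k1 + 1 ≤ k → (st (h c k)).2.1 = d := by
      intro k hk
      obtain ⟨m, rfl⟩ : ∃ m, k = m + 1 := ⟨k - 1, by omega⟩
      have h1 := (R.step m).1
      rw [h1]
      exact hk1' m (by omega)
    obtain ⟨U, hU1, hU2, hU3⟩ := uniformize (S := Qb) sig_qb
    let cnd : List (State × ℕ) → Bool := fun l => decide (k1 + 1 ≤ l.length) &&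
      (decide ((st l).2.2.1 = none) && decide ((req (st l).2.2.2.2).1 = e))
    have hcnd : Computable cnd := by
      have e1 : Computable (fun l : List (State × ℕ) => decide (k1 + 1 ≤ l.length)) :=
        (PrimrecPred.decide (Primrec.nat_le.comp (Primrec.const _) Primrec.list_length)).to_comp
      have e2 : Computable (fun l : List (State × ℕ) => decide ((st l).2.2.1 = none)) :=
        (PrimrecPred.decide (Primrec.eq.comp (Primrec.fst.comp (Primrec.snd.comp
          (Primrec.snd.comp primrec_st))) (Primrec.const none))).to_comp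
      have e3 : Computable (fun l : List (State × ℕ) =>
          decide ((req (st l).2.2.2.2).1 = e)) :=
        (PrimrecPred.decide (Primrec.eq.comp (Primrec.fst.comp (primrec_req.comp
          (Primrec.snd.comp (Primrec.snd.comp (Primrec.snd.comp (Primrec.snd.comp
            primrec_st)))))) (Primrec.const e))).to_comp
      exact Primrec.and.to_comp.comp e1 (Primrec.and.to_comp.comp e2 e3)
    let qof : List (State × ℕ) → Q := fun l => ((st l).1, e, d, encode l)
    have hqof : Computable qof :=
      (Primrec.pair (Primrec.fst.comp primrec_st) (Primrec.pair (Primrec.const e)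
        (Primrec.pair (Primrec.const d) Primrec.encode))).to_comp
    have hG : Partrec (fun l : List (State × ℕ) => cond (cnd l) (U (qof l)) (Part.some 0)) :=
      Partrec.cond hcnd (hU1.comp hqof) (Computable.const 0).partrec
    have hcnd_iff : ∀ k, cnd (h c k) = true ↔ k1 + 1 ≤ k ∧ (st (h c k)).2.2.1 = none ∧
        (req (st (h c k)).2.2.2.2).1 = e := by
      intro k
      simp only [cnd, Bool.and_eq_true, decide_eq_true_eq, hlen]
    have hQ : ∀ k, cnd (h c k) = true → ∃ b, Qb (qof (h c k), b) := by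
      intro k hk
      obtain ⟨h1, h2, h3⟩ := (hcnd_iff k).1 hk
      exact R.positive hd hK1 hcred hk0 h1 h2 h3
    obtain ⟨f, hf1, hf2⟩ := (hh2 c).2.2 _ hG (by
      intro k
      cases hk : cnd (h c k)
      · trivial
      · obtain ⟨b, hb⟩ := hQ k hk
        exact hU3 _ b hb)
    obtain ⟨j, hj⟩ := Code.exists_code.1 (Partrec.nat_iff.1 hf1.partrec)
    have hj' : ∀ n v, v ∈ j.eval n ↔ v = f n := by
      intro n v
      rw [hj]
      exact Part.mem_some_iff
    obtain ⟨N1, hN1⟩ := eventually_atTop.1 (hK2 f hf1)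
    obtain ⟨N2, hN2⟩ := eventually_atTop.1 (hdom' f hf1)
    obtain ⟨k, hk, hkn, hkr⟩ := R.visit hd hK1 e j (max (k1 + 1) (max N1 N2))
    have hkc : cnd (h c k) = true := (hcnd_iff k).2 ⟨by omega, hkn, by rw [hkr]⟩
    obtain ⟨b0, hb0⟩ := hQ k hkc
    have hα : (st (h c k)).2.1 = d := hk0 k (by omega)
    have hYes : Yes (((st (h c k)).1, e, d), j, k) := by
      have hUd := hU3 _ b0 hb0
      have hmem := Part.get_mem hUd
      refine ⟨(encode (h c k), (U (qof (h c k))).get hUd, f (encode (h c k))), ?_,
        hU2 _ _ hmem, (hj' _ _).2 rfl, ?_⟩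
      · have h1 := Encodable.length_le_encode (h c k)
        rw [hlen] at h1
        exact h1
      · refine hf2 k _ ?_
        rw [hkc]
        exact hmem
    have hfin : ∀ n u v, k ≤ n → v ∈ j.eval n → u < v →
        (u = h' n ∨ u = hK n) → False := by
      intro n u v h1 h2 h3 h4
      rw [hj'] at h2
      subst h2
      rcases h4 with rfl | rfl
      · have := hN2 n (by omega)
        omega
      · have := hN1 n (by omega)
        omega
    rcases (R.step k).2 with ⟨q', y, i1, i2, i3, i4, i5, i6, i7⟩ | ⟨q, v, i1, i2, i3, i4, i5⟩ |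
      ⟨q', i1, i2, i3, i4⟩ | ⟨i1, i2, i3, i4, i5⟩ | ⟨i1, i2, i3, p', i4, i5, i6⟩
    · rw [hkn] at i1
      cases i1
    · rw [hkn] at i1
      cases i1
    · rw [hkn] at i1
      cases i1
    · rw [hkr, hα] at i3
      exact i3 ⟨b0, hb0⟩
    · rw [hkr, hα] at i6
      obtain ⟨⟨n, u, v⟩, w1, w2, w3, w4⟩ := i6 (hcred k) hYes
      refine hfin n u v w1 w2 w3 ?_
      rcases w4 with w4 | w4
      · left
        exact (he n u).1 (R.outS_HH i5.pfx.1 w4)
      · right
        exact (hK1 n u).1 (R.outS_KK i5.pfx.2 w4)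

end HighD2
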